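import Mathlib

/-!
# Idempotents fixed by a self-centralising normal subgroup of order a power of `p`
-/

namespace Pool.Agent.Helper17.PF

open MonoidAlgebra MulAction

set_option linter.unusedSectionVars false

/-- In characteristic `p`, the sum of a function invariant under a finite `p`-group is the sum over
the fixed points. -/
lemma sum_fixed {p : ℕ} [Fact p.Prime] {F A α M : Type*} [Field F] [CharP F p] [Group A]
    [MulAction A α] [Fintype α] (hA : IsPGroup p A) [AddCommGroup M] [Module F M]
    (f : α → M) (hf : ∀ (a : A) (x : α), f (a • x) = f x) (s : Finset α)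
    (hs : ∀ x, x ∈ s ↔ ∀ a : A, a • x = x) : ∑ x, f x = ∑ x ∈ s, f x := by
  classical
  have h1 : ∑ x, f x = ∑ b ∈ Finset.univ.image f, (Finset.univ.filter fun a => f a = b).card • b :=
    Finset.sum_comp (fun b => b) f
  have h2 : ∑ x ∈ s, f x = ∑ b ∈ s.image f, (s.filter fun a => f a = b).card • b :=
    Finset.sum_comp (fun b => b) f
  have h3 : ∑ b ∈ s.image f, (s.filter fun a => f a = b).card • b =
      ∑ b ∈ Finset.univ.image f, (s.filter fun a => f a = b).card • b := by
    refine Finset.sum_subset (Finset.image_subset_image (Finset.subset_univ _)) ?_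
    intro b _ hb
    have : (s.filter fun a => f a = b) = ∅ := by
      rw [Finset.filter_eq_empty_iff]
      intro x hx hxb
      exact hb (Finset.mem_image.2 ⟨x, hx, hxb⟩)
    rw [this]; simp
  rw [h1, h2, h3]
  refine Finset.sum_congr rfl fun b _ => ?_
  let N : SubMulAction A α := ⟨{x | f x = b}, fun a x hx => by
    change f (a • x) = b
    rw [hf]; exact hx⟩
  have h4 := hA.card_modEq_card_fixedPoints N
  have h5 : Nat.card N = (Finset.univ.filter fun a => f a = b).card := by
    rw [Nat.card_eq_fintype_card]
    exact Fintype.card_subtype _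
  have h6 : Nat.card (fixedPoints A N) = (s.filter fun a => f a = b).card := by
    rw [Nat.card_eq_fintype_card, Fintype.card_subtype]
    refine Finset.card_bij (fun x _ => x.1) ?_ ?_ ?_
    · intro x hx
      rw [Finset.mem_filter] at hx ⊢
      refine ⟨(hs _).2 fun a => ?_, x.2⟩
      exact congrArg Subtype.val (hx.2 a)
    · intro x _ y _ h
      exact Subtype.ext h
    · intro x hx
      rw [Finset.mem_filter] at hx
      refine ⟨⟨x, hx.2⟩, ?_, rfl⟩
      rw [Finset.mem_filter]
      exact ⟨Finset.mem_univ _, fun a => Subtype.ext ((hs x).1 hx.1 a)⟩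
  rw [h5, h6] at h4
  have h7 : ((Finset.univ.filter fun a => f a = b).card : F) =
      ((s.filter fun a => f a = b).card : F) := (CharP.natCast_eq_natCast F p).2 h4
  rw [← Nat.cast_smul_eq_nsmul F, ← Nat.cast_smul_eq_nsmul F, h7]

variable {p : ℕ} [Fact p.Prime] {F : Type*} [Field F] [CharP F p] {L : Type*} [Group L] [Finite L]

/-- a nonzero fixed element in a right multiple -/
lemma exists_fixed (A : Subgroup L) (hp : IsPGroup p A) (hab : ∀ a ∈ A, ∀ b ∈ A, a * b = b * a)
    (e : MonoidAlgebra F L) (he : e * e = e) (hA : ∀ a ∈ A, single a 1 * e = e * single a 1)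
    (hne : e ≠ 0) (s : Finset L) (hs : ∀ a ∈ s, a ∈ A) :
    ∃ v : MonoidAlgebra F L, v ≠ 0 ∧ e * v = v ∧ ∀ a ∈ s, single a 1 * v = v := by
  classical
  induction s using Finset.induction_on with
  | empty => exact ⟨e, hne, he, by simp⟩
  | insert a s ha ih =>
    obtain ⟨v, hv0, hev, hv⟩ := ih fun b hb => hs b (Finset.mem_insert_of_mem hb)
    have haA : a ∈ A := hs a (Finset.mem_insert_self _ _)
    obtain ⟨n, hn⟩ := hp ⟨a, haA⟩
    have hn' : a ^ p ^ n = 1 := by
      have := congrArg Subtype.val hn
      simpa using this
    have hnil : ((single a (1 : F) - 1) ^ p ^ n : MonoidAlgebra F L) = 0 := by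
      have hc : Commute (single a (1 : F)) (1 : MonoidAlgebra F L) := Commute.one_right _
      have : CharP (MonoidAlgebra F L) p :=
        charP_of_injective_algebraMap (algebraMap F (MonoidAlgebra F L)).injective p
      rw [sub_pow_char_pow_of_commute _ _ hc, single_pow, one_pow, one_pow, hn']
      simp [one_def]
    have hex : ∃ m, (single a (1 : F) - 1) ^ m * v = 0 := ⟨p ^ n, by rw [hnil, zero_mul]⟩
    obtain ⟨m, hm⟩ : ∃ m, Nat.find hex = m + 1 := by
      refine ⟨Nat.find hex - 1, ?_⟩
      have : Nat.find hex ≠ 0 := by
        intro h0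
        have := Nat.find_spec hex
        rw [h0, pow_zero, one_mul] at this
        exact hv0 this
      omega
    have hm1 := Nat.find_spec hex
    rw [hm] at hm1
    have hm2 : (single a (1 : F) - 1) ^ m * v ≠ 0 := Nat.find_min hex (by omega)
    refine ⟨(single a (1 : F) - 1) ^ m * v, hm2, ?_, ?_⟩
    · have hc : Commute e (single a (1 : F) - 1) :=
        ((show Commute e (single a (1 : F)) from (hA a haA).symm).sub_right (Commute.one_right _))
      rw [← mul_assoc, (hc.pow_right m).eq, mul_assoc, hev]
    · intro b hb
      rcases Finset.mem_insert.1 hb with rfl | hb'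
      · have : (single b (1 : F) - 1) * ((single b (1 : F) - 1) ^ m * v) = 0 := by
          rw [← mul_assoc, ← pow_succ']; exact hm1
        rw [sub_mul, one_mul, sub_eq_zero] at this
        exact this
      · have hbA : b ∈ A := hs b (Finset.mem_insert_of_mem hb')
        have hc : Commute (single b (1 : F)) (single a (1 : F) - 1) := by
          refine Commute.sub_right ?_ (Commute.one_right _)
          change single b (1 : F) * single a 1 = single a 1 * single b 1
          rw [single_mul_single, single_mul_single, hab b hbA a haA]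
        rw [← mul_assoc, (hc.pow_right m).eq, mul_assoc, hv b hb']

/-- An idempotent which commutes with a self-centralising abelian normal `p`-subgroup is `0` or
`1`. -/
theorem idem_trivial (A : Subgroup L) [A.Normal] (hp : IsPGroup p A)
    (hab : ∀ a ∈ A, ∀ b ∈ A, a * b = b * a)
    (hC : ∀ g : L, (∀ a ∈ A, a * g = g * a) → g ∈ A)
    (e : MonoidAlgebra F L) (he : e * e = e) (hA : ∀ a ∈ A, single a 1 * e = e * single a 1) :
    e = 0 ∨ e = 1 := by
  classical
  have : Fintype L := Fintype.ofFinite L
  -- the scalar
  have key : ∀ e : MonoidAlgebra F L, (∀ a ∈ A, single a 1 * e = e * single a 1) →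
      ∃ s : F, ∀ x : MonoidAlgebra F L, (∀ a ∈ A, single a 1 * x = x) → e * x = s • x := by
    intro e hA
    refine ⟨∑ g ∈ Finset.univ.filter (fun g => ∀ a ∈ A, a * g = g * a), e.coeff g, ?_⟩
    intro x hx
    have hsum : e * x = ∑ g : L, e.coeff g • (single g (1 : F) * x) := by
      have h1 : e = ∑ g : L, e.coeff g • single g (1 : F) := by
        ext g
        simp [coeff_sum, coeff_single]
      conv_lhs => rw [h1]
      rw [Finset.sum_mul]
      refine Finset.sum_congr rfl fun g _ => ?_
      rw [smul_mul_assoc]
    have hcoef : ∀ a ∈ A, ∀ g, e.coeff (a * g * a⁻¹) = e.coeff g := by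
      intro a ha g
      have h1 := congrArg (fun z : MonoidAlgebra F L => z.coeff (a * g)) (hA a ha)
      simp only [coeff_single_mul_apply, coeff_mul_single_apply, one_mul, mul_one] at h1
      rw [← h1]
      congr 1
      group
    have hgx : ∀ g : L, ∀ a ∈ A, single a (1 : F) * (single g 1 * x) = single g 1 * x := by
      intro g a ha
      have h1 : single a (1 : F) * single g 1 = single g 1 * single (g⁻¹ * a * g) 1 := by
        rw [single_mul_single, single_mul_single, mul_one]
        congr 1
        group
      have h2 : g⁻¹ * a * g ∈ A := by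
        have := (inferInstance : A.Normal).conj_mem a ha g⁻¹
        simpa using this
      rw [← mul_assoc, h1, mul_assoc, hx _ h2]
    rw [hsum, Finset.sum_smul]
    let inst : MulAction A L :=
      { smul := fun a g => a * g * a⁻¹
        one_smul := by
          intro g
          change ((1 : A) : L) * g * ((1 : A) : L)⁻¹ = g
          simp
        mul_smul := by
          intro a b g
          change ((a * b : A) : L) * g * ((a * b : A) : L)⁻¹ =
            (a : L) * ((b : L) * g * (b : L)⁻¹) * (a : L)⁻¹
          push_cast
          group }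
    have h3 := @sum_fixed p _ F A L (MonoidAlgebra F L) _ _ _ inst _ hp _ _
      (fun g => e.coeff g • (single g (1 : F) * x)) (by
        intro a g
        change e.coeff ((a : L) * g * (a : L)⁻¹) • (single ((a : L) * g * (a : L)⁻¹) (1 : F) * x) =
          e.coeff g • (single g (1 : F) * x)
        rw [hcoef a a.2 g]
        congr 1
        have h4 : single ((a : L) * g * (a : L)⁻¹) (1 : F) =
            single (a : L) 1 * single g 1 * single (a : L)⁻¹ 1 := by
          simp [single_mul_single]
        rw [h4, mul_assoc, hx _ (A.inv_mem a.2), mul_assoc, hgx g a a.2])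
      (Finset.univ.filter (fun g => ∀ a ∈ A, a * g = g * a)) (by
        intro g
        rw [Finset.mem_filter]
        constructor
        · rintro ⟨_, h⟩ a
          change (a : L) * g * (a : L)⁻¹ = g
          rw [h a a.2]; simp
        · intro h
          refine ⟨Finset.mem_univ _, fun a ha => ?_⟩
          have h5 : a * g * a⁻¹ = g := h ⟨a, ha⟩
          calc a * g = (a * g * a⁻¹) * a := by group
            _ = g * a := by rw [h5])
    rw [h3]
    refine Finset.sum_congr rfl fun g hg => ?_
    rw [Finset.mem_filter] at hg
    rw [hx g (hC g hg.2)]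
  -- the fixed element
  have hkill : ∀ e : MonoidAlgebra F L, e * e = e →
      (∀ a ∈ A, single a 1 * e = e * single a 1) →
      (∀ x : MonoidAlgebra F L, (∀ a ∈ A, single a 1 * x = x) → e * x = 0) → e = 0 := by
    intro e he hA h0
    by_contra hne
    obtain ⟨v, hv0, hev, hv⟩ := exists_fixed A hp hab e he hA hne
      (Finset.univ.filter (· ∈ A)) (by intro a ha; exact (Finset.mem_filter.1 ha).2)
    have := h0 v fun a ha => hv a (Finset.mem_filter.2 ⟨Finset.mem_univ _, ha⟩)
    rw [hev] at this
    exact hv0 this
  obtain ⟨s, hs⟩ := key e hA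
  let x₀ : MonoidAlgebra F L := ∑ a : A, single (a : L) (1 : F)
  have hx₀ : ∀ a ∈ A, single a (1 : F) * x₀ = x₀ := by
    intro a ha
    change single a (1 : F) * ∑ b : A, single (b : L) (1 : F) = ∑ b : A, single (b : L) (1 : F)
    rw [Finset.mul_sum]
    refine Fintype.sum_equiv (Equiv.mulLeft (⟨a, ha⟩ : A)) _ _ fun b => ?_
    simp [single_mul_single]
  have hx₀ne : x₀ ≠ 0 := by
    intro h
    have := congrArg (fun z : MonoidAlgebra F L => z.coeff 1) h
    simp only [x₀, coeff_sum, Finset.sum_apply', coeff_single, coeff_zero, Finsupp.coe_zero,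
      Pi.zero_apply] at this
    rw [Finset.sum_eq_single 1] at this
    · simp at this
    · intro b _ hb
      rw [Finsupp.single_apply, if_neg]
      intro h1
      exact hb (Subtype.ext h1)
    · simp
  have hss : s = 0 ∨ s = 1 := by
    have h1 := hs x₀ hx₀
    have h2 : e * (e * x₀) = s • (s • x₀) := by rw [h1, mul_smul_comm, h1]
    rw [← mul_assoc, he, h1, smul_smul] at h2
    have h3 : (s - s * s) • x₀ = 0 := by rw [sub_smul, ← h2, sub_self]
    have h4 : s - s * s = 0 := by
      rcases smul_eq_zero.1 h3 with h | h
      · exact h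
      · exact absurd h hx₀ne
    have h5 : s * (1 - s) = 0 := by linear_combination h4
    rcases mul_eq_zero.1 h5 with h | h
    · exact Or.inl h
    · exact Or.inr (sub_eq_zero.1 h).symm
  rcases hss with h | h
  · left
    refine hkill e he hA fun x hx => ?_
    rw [hs x hx, h, zero_smul]
  · right
    have h1 : (1 - e) = 0 := by
      refine hkill (1 - e) ?_ ?_ ?_
      · rw [mul_sub, sub_mul, sub_mul, he]; simp
      · intro a ha
        rw [mul_sub, sub_mul, hA a ha]; simp
      · intro x hx
        rw [sub_mul, one_mul, hs x hx, h, one_smul, sub_self]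
    exact (sub_eq_zero.1 h1).symm

end Pool.Agent.Helper17.PF
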