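import Mathlib

/-!
# Primitive idempotents of a finite-dimensional algebra
-/

namespace Pool.Agent.Helper17.PF

set_option linter.unusedSectionVars false

open Polynomial

section field

variable {k : Type*} [Field k] {R : Type*} [Ring R] [Algebra k R] [FiniteDimensional k R]

/-- `e` is a primitive idempotent of the ring `R` -/
structure IsPrim {R : Type*} [Ring R] (e : R) : Prop where
  idem : e * e = e
  ne : e ≠ 0
  prim : ∀ f : R, f * f = f → e * f = f → f * e = f → f = 0 ∨ f = e

variable (k) in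
include k in
lemma fitting (x : R) : ∃ w : R, ∃ n : ℕ, x * w = w * x ∧ (x * w) * (x * w) = x * w ∧
    x ^ n * (x * w) = x ^ n := by
  have hint : IsIntegral k x := Algebra.IsIntegral.isIntegral x
  have hp0 : (X * minpoly k x) ≠ 0 := mul_ne_zero X_ne_zero (minpoly.ne_zero hint)
  obtain ⟨q, hq, hnd⟩ := exists_eq_pow_rootMultiplicity_mul_and_not_dvd _ hp0 (0 : k)
  obtain ⟨n, hn⟩ : ∃ n, n = rootMultiplicity (0 : k) (X * minpoly k x) := ⟨_, rfl⟩
  rw [← hn] at hq
  have hroot : (X * minpoly k x).IsRoot 0 := by simp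
  have hn1 : 0 < n := by rw [hn]; exact (rootMultiplicity_pos hp0).2 hroot
  clear hn
  simp only [map_zero, sub_zero] at hq hnd
  have hcop : IsCoprime (X ^ n : k[X]) q := by
    apply IsCoprime.pow_left
    exact (Polynomial.irreducible_X.coprime_iff_not_dvd).2 hnd
  obtain ⟨u, v, huv⟩ := hcop
  have hzero : aeval x (X ^ n * q) = 0 := by
    rw [← hq]; simp
  obtain ⟨m, rfl⟩ : ∃ m, n = m + 1 := ⟨n - 1, by omega⟩
  refine ⟨aeval x (X ^ m * u), m + 1, ?_, ?_, ?_⟩
  · have h1 : x * aeval x (X ^ m * u) = aeval x (X * (X ^ m * u)) := by simp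
    have h2 : aeval x (X ^ m * u) * x = aeval x ((X ^ m * u) * X) := by simp
    rw [h1, h2, mul_comm]
  · have h1 : x * aeval x (X ^ m * u) = aeval x (u * X ^ (m + 1)) := by
      have : u * X ^ (m + 1) = X * (X ^ m * u) := by ring
      rw [this]; simp
    rw [h1, ← map_mul]
    have h2 : u * X ^ (m + 1) * (u * X ^ (m + 1)) =
        u * X ^ (m + 1) - u * v * (X ^ (m + 1) * q) := by
      linear_combination (u * X ^ (m + 1)) * huv
    rw [h2, map_sub, map_mul (aeval x) (u * v), hzero]
    simp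
  · have h1 : x ^ (m + 1) * (x * aeval x (X ^ m * u)) = aeval x (X ^ (m + 1) * (u * X ^ (m + 1))) := by
      have : X ^ (m + 1) * (u * X ^ (m + 1)) = X ^ (m + 1) * (X * (X ^ m * u)) := by ring
      rw [this]; simp
    have h2 : X ^ (m + 1) * (u * X ^ (m + 1)) = X ^ (m + 1) - v * (X ^ (m + 1) * q) := by
      linear_combination (X ^ (m + 1)) * huv
    rw [h1, h2, map_sub, map_mul (aeval x) v, hzero]
    simp

variable (k) in
include k in
lemma IsPrim.unit {e x : R} (he : IsPrim e) (h1 : e * x = x) (h2 : x * e = x) :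
    (∃ n : ℕ, x ^ n = 0) ∨ ∃ w, e * w = w ∧ w * e = w ∧ x * w = e ∧ w * x = e := by
  obtain ⟨w, n, hc, hi, hn⟩ := fitting k x
  rcases he.prim (x * w) hi (by rw [← mul_assoc, h1]) (by rw [hc, mul_assoc, h2]) with h | h
  · left
    refine ⟨n, ?_⟩
    rw [← hn, h, mul_zero]
  · right
    refine ⟨e * w * e, ?_, ?_, ?_, ?_⟩
    · rw [← mul_assoc, ← mul_assoc, he.idem]
    · rw [mul_assoc, he.idem]
    · rw [← mul_assoc, ← mul_assoc, h2, h, he.idem]
    · rw [mul_assoc, h1, mul_assoc, ← hc, h, he.idem]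

variable {V : Type*} [AddCommGroup V] [Module k V] [FiniteDimensional k V]

lemma pow_apply_fix (A : Module.End k V) {v : V} (h : A v = v) (n : ℕ) : (A ^ n) v = v := by
  induction n with
  | zero => simp
  | succ n ih => rw [pow_succ, Module.End.mul_apply, h, ih]

lemma IsPrim.finrank_range_le_one (ρ : R →ₐ[k] Module.End k V) (hρ : Function.Surjective ρ)
    {e : R} (he : IsPrim e) : Module.finrank k (LinearMap.range (ρ e)) ≤ 1 := by
  by_cases h0 : LinearMap.range (ρ e) = ⊥
  · rw [h0]; simp
  · obtain ⟨v₂, hv₂, hne⟩ := (Submodule.ne_bot_iff _).1 h0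
    have hfix : ∀ v ∈ LinearMap.range (ρ e), ρ e v = v := by
      rintro v ⟨w, rfl⟩
      rw [← Module.End.mul_apply, ← map_mul, he.idem]
    refine finrank_le_one (⟨v₂, hv₂⟩ : LinearMap.range (ρ e)) ?_
    rintro ⟨v₁, hv₁⟩
    by_cases hmem : v₁ ∈ Submodule.span k {v₂}
    · obtain ⟨c, hc⟩ := Submodule.mem_span_singleton.1 hmem
      exact ⟨c, Subtype.ext hc⟩
    · exfalso
      obtain ⟨A, hA, hA1⟩ := LinearMap.exists_extend_of_notMem
        (0 : (Submodule.span k {v₂}) →ₗ[k] V) hmem v₁
      have hA2 : A v₂ = 0 := by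
        have := congrArg (fun f => f (⟨v₂, Submodule.mem_span_singleton_self v₂⟩ :
          Submodule.span k {v₂})) hA
        simpa using this
      obtain ⟨r, hr⟩ := hρ A
      have hx1 : ρ (e * r * e) v₁ = v₁ := by
        rw [map_mul, map_mul, Module.End.mul_apply, Module.End.mul_apply, hfix v₁ hv₁, hr, hA1,
          hfix v₁ hv₁]
      have hx2 : ρ (e * r * e) v₂ = 0 := by
        rw [map_mul, map_mul, Module.End.mul_apply, Module.End.mul_apply, hfix v₂ hv₂, hr, hA2,
          map_zero]
      have hv1 : v₁ ≠ 0 := by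
        rintro rfl
        exact hmem (Submodule.zero_mem _)
      rcases he.unit k (x := e * r * e) (by rw [← mul_assoc, ← mul_assoc, he.idem])
        (by rw [mul_assoc, he.idem]) with ⟨n, hn⟩ | ⟨w, _, _, _, hw⟩
      · have := pow_apply_fix (ρ (e * r * e)) hx1 n
        rw [← map_pow, hn, map_zero, LinearMap.zero_apply] at this
        exact hv1 this.symm
      · apply hne
        rw [← hfix v₂ hv₂, ← hw, map_mul, Module.End.mul_apply, hx2, map_zero]

/-- Two primitive idempotents which do not kill the simple module `V` are equivalent. -/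
lemma IsPrim.link (ρ : R →ₐ[k] Module.End k V) (hρ : Function.Surjective ρ)
    {e f : R} (he : IsPrim e) (hf : IsPrim f) (h1 : ρ e ≠ 0) (h2 : ρ f ≠ 0) :
    ∃ x y : R, e * x = x ∧ x * f = x ∧ f * y = y ∧ y * e = y ∧ x * y = e ∧ y * x = f := by
  have key : ∀ g : R, IsPrim g → ρ g ≠ 0 → ∃ v, v ≠ 0 ∧ ρ g v = v := by
    intro g hg h
    obtain ⟨w, hw⟩ : ∃ w, ρ g w ≠ 0 := by
      by_contra hcon
      push Not at hcon
      exact h (LinearMap.ext hcon)
    refine ⟨ρ g w, hw, ?_⟩
    rw [← Module.End.mul_apply, ← map_mul, hg.idem]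
  have ext1 : ∀ a b : V, a ≠ 0 → ∃ r : R, ρ r a = b := by
    intro a b ha
    obtain ⟨A, _, hA⟩ := LinearMap.exists_extend_of_notMem
        (p := (⊥ : Submodule k V)) (v := a) 0 (by simpa using ha) b
    obtain ⟨r, hr⟩ := hρ A
    exact ⟨r, by rw [hr, hA]⟩
  obtain ⟨v, hv, hev⟩ := key e he h1
  obtain ⟨u, hu, hfu⟩ := key f hf h2
  obtain ⟨r₁, hr₁⟩ := ext1 u v hu
  obtain ⟨r₂, hr₂⟩ := ext1 v u hv
  have hx : ρ (e * r₁ * f) u = v := by
    rw [map_mul, map_mul, Module.End.mul_apply, Module.End.mul_apply, hfu, hr₁, hev]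
  have hy : ρ (f * r₂ * e) v = u := by
    rw [map_mul, map_mul, Module.End.mul_apply, Module.End.mul_apply, hev, hr₂, hfu]
  have hxy : ρ ((e * r₁ * f) * (f * r₂ * e)) v = v := by
    rw [map_mul, Module.End.mul_apply, hy, hx]
  have e1 : e * (e * r₁ * f) = e * r₁ * f := by rw [← mul_assoc, ← mul_assoc, he.idem]
  have e2 : (e * r₁ * f) * f = e * r₁ * f := by rw [mul_assoc, hf.idem]
  have e3 : f * (f * r₂ * e) = f * r₂ * e := by rw [← mul_assoc, ← mul_assoc, hf.idem]
  have e4 : (f * r₂ * e) * e = f * r₂ * e := by rw [mul_assoc, he.idem]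
  rcases he.unit k (x := (e * r₁ * f) * (f * r₂ * e)) (by rw [← mul_assoc, e1])
    (by rw [mul_assoc, e4]) with ⟨n, hn⟩ | ⟨w, hw1, hw2, hw3, hw4⟩
  · exfalso
    have := pow_apply_fix _ hxy n
    rw [← map_pow, hn, map_zero, LinearMap.zero_apply] at this
    exact hv this.symm
  · set x := e * r₁ * f
    set y := f * r₂ * e
    refine ⟨x, y * w, e1, e2, by rw [← mul_assoc, e3], by rw [mul_assoc, hw2],
      by rw [← mul_assoc, hw3], ?_⟩
    have hid : (y * w * x) * (y * w * x) = y * w * x := by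
      calc (y * w * x) * (y * w * x) = y * w * (x * y * w) * x := by simp only [mul_assoc]
        _ = y * w * e * x := by rw [hw3]
        _ = y * w * x := by rw [mul_assoc (y * w), e1]
    rcases hf.prim (y * w * x) hid (by rw [mul_assoc y w, ← mul_assoc f, e3])
      (by rw [mul_assoc, e2]) with h | h
    · exfalso
      apply he.ne
      have h5 : x * (y * w * x) * (y * w) = e := by
        calc x * (y * w * x) * (y * w) = (x * y * w) * (x * y * w) := by simp only [mul_assoc]
          _ = e := by rw [hw3, he.idem]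
      rw [← h5, h]; simp
    · exact h

end field

open Classical in
/-- counting -/
lemma card_ge {k V ι : Type*} [Field k] [AddCommGroup V] [Module k V] [FiniteDimensional k V]
    (s : Finset ι) (A : ι → Module.End k V) (h1 : ∑ i ∈ s, A i = 1)
    (h2 : ∀ i ∈ s, Module.finrank k (LinearMap.range (A i)) ≤ 1) :
    Module.finrank k V ≤ (s.filter fun i => A i ≠ 0).card := by
  classical
  have hle : ∀ t : Finset ι, Module.finrank k (LinearMap.range (∑ i ∈ t, A i)) ≤
      ∑ i ∈ t, Module.finrank k (LinearMap.range (A i)) := by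
    intro t
    induction t using Finset.induction_on with
    | empty =>
      rw [Finset.sum_empty, Finset.sum_empty]
      have : LinearMap.range (0 : Module.End k V) = ⊥ := LinearMap.range_zero
      rw [this, finrank_bot]
    | insert a t ha ih =>
      rw [Finset.sum_insert ha, Finset.sum_insert ha]
      have h3 : LinearMap.range (A a + ∑ i ∈ t, A i) ≤
          LinearMap.range (A a) ⊔ LinearMap.range (∑ i ∈ t, A i) := by
        rintro _ ⟨v, rfl⟩
        rw [LinearMap.add_apply]
        exact Submodule.add_mem_sup ⟨v, rfl⟩ ⟨v, rfl⟩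
      calc _ ≤ Module.finrank k ↥(LinearMap.range (A a) ⊔ LinearMap.range (∑ i ∈ t, A i)) :=
            Submodule.finrank_mono h3
        _ ≤ _ := Submodule.finrank_add_le_finrank_add_finrank _ _
        _ ≤ _ := Nat.add_le_add_left ih _
  have h4 := hle s
  rw [h1] at h4
  have h5 : Module.finrank k (LinearMap.range (1 : Module.End k V)) = Module.finrank k V := by
    have : LinearMap.range (1 : Module.End k V) = ⊤ := LinearMap.range_id
    rw [this, finrank_top]
  rw [h5] at h4
  refine h4.trans ?_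
  rw [Finset.card_filter]
  refine Finset.sum_le_sum fun i hi => ?_
  by_cases h : A i = 0
  · simp [h]
  · rw [if_pos h]; exact h2 i hi

end Pool.Agent.Helper17.PF
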