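import Pool.Agent.Helper17.PF.Idl

/-!
# The thick staircase

The cells of the staircase with `t` rows are the pairs `(i, j)` with `i + j < t`. The thick staircase
has `m` points in every cell.
-/

namespace Pool.Agent.Helper17.PF

set_option linter.unusedSectionVars false

/-- the cells of the staircase -/
abbrev Cell (t : ℕ) : Type := {x : Fin t × Fin t // x.1.val + x.2.val < t}

namespace Cell

variable {t : ℕ}

/-- row -/
def row (x : Cell t) : ℕ := x.1.1.val
/-- column -/
def col (x : Cell t) : ℕ := x.1.2.val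

lemma lt (x : Cell t) : x.row + x.col < t := x.2

lemma ext' {x y : Cell t} (h1 : x.row = y.row) (h2 : x.col = y.col) : x = y := by
  apply Subtype.ext
  apply Prod.ext
  · exact Fin.ext h1
  · exact Fin.ext h2

/-- a cell with given row and column -/
def mk (i j : ℕ) (h : i + j < t) : Cell t := ⟨(⟨i, by omega⟩, ⟨j, by omega⟩), h⟩

@[simp] lemma row_mk (i j : ℕ) (h : i + j < t) : (mk i j h).row = i := rfl
@[simp] lemma col_mk (i j : ℕ) (h : i + j < t) : (mk i j h).col = j := rfl

/-- the transposition of the staircase -/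
def tau (t : ℕ) : Equiv.Perm (Cell t) where
  toFun x := mk x.col x.row (by have := x.lt; omega)
  invFun x := mk x.col x.row (by have := x.lt; omega)
  left_inv x := ext' rfl rfl
  right_inv x := ext' rfl rfl

/-- the reversal of the rows -/
def rev (t : ℕ) : Equiv.Perm (Cell t) where
  toFun x := mk x.row (t - 1 - x.row - x.col) (by have := x.lt; omega)
  invFun x := mk x.row (t - 1 - x.row - x.col) (by have := x.lt; omega)
  left_inv x := ext' rfl (by have := x.lt; simp only [row_mk, col_mk]; omega)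
  right_inv x := ext' rfl (by have := x.lt; simp only [row_mk, col_mk]; omega)

/-- the group of the antidiagonals -/
def Y (t : ℕ) : Subgroup (Equiv.Perm (Cell t)) where
  carrier := {σ | ∀ x, (σ x).row + (σ x).col = x.row + x.col}
  mul_mem' := by
    intro a b ha hb x
    change (a (b x)).row + (a (b x)).col = x.row + x.col
    rw [ha, hb]
  one_mem' := fun x => rfl
  inv_mem' := by
    intro a ha x
    have := ha (a⁻¹ x)
    rw [← this]
    simp

lemma mem_Y {σ : Equiv.Perm (Cell t)} :
    σ ∈ Y t ↔ ∀ x, (σ x).row + (σ x).col = x.row + x.col := Iff.rfl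

lemma card_antidiag (v : Fin t) :
    v.val + 1 ≤ Fintype.card {x : Cell t // (⟨x.row + x.col, x.lt⟩ : Fin t) = v} := by
  classical
  have hv := v.2
  let f : Fin (v.val + 1) → {x : Cell t // (⟨x.row + x.col, x.lt⟩ : Fin t) = v} := fun i =>
    ⟨mk i.val (v.val - i.val) (by have := i.2; omega), by
      apply Fin.ext
      simp only [row_mk, col_mk]
      have := i.2
      omega⟩
  have hf : Function.Injective f := by
    intro i j h
    apply Fin.ext
    have := congrArg (fun x => (x.1 : Cell t).row) h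
    simpa [f] using this
  have := Fintype.card_le_of_injective f hf
  simpa using this

/-- the order of the group of the antidiagonals -/
theorem card_Y (t : ℕ) : ∏ s ∈ Finset.range t, (s + 1).factorial ≤ Nat.card (Y t) := by
  classical
  let f : Cell t → Fin t := fun x => ⟨x.row + x.col, x.lt⟩
  have h1 := DomMulAct.stabilizer_card f
  have h2 : Nat.card (Y t) = Fintype.card {g : Equiv.Perm (Cell t) // f ∘ g = f} := by
    rw [Nat.card_eq_fintype_card]
    refine Fintype.card_congr (Equiv.subtypeEquivRight fun σ => ?_)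
    rw [mem_Y]
    constructor
    · intro h
      funext x
      exact Fin.ext (h x)
    · intro h x
      have := congrFun h x
      exact congrArg Fin.val this
  rw [h2, h1, ← Fin.prod_univ_eq_prod_range (fun s => (s + 1).factorial) t]
  refine Finset.prod_le_prod' fun v _ => ?_
  exact Nat.factorial_le (card_antidiag v)

end Cell

/-- the points of the thick staircase -/
abbrev Pt (t m : ℕ) : Type := Cell t × Fin m

namespace Pt

variable {t m : ℕ}

/-- row -/
def row (x : Pt t m) : ℕ := x.1.row
/-- column -/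
def col (x : Pt t m) : ℕ := x.1.col

lemma lt (x : Pt t m) : x.row + x.col < t := x.1.lt

/-- the row group -/
def R (t m : ℕ) : Subgroup (Equiv.Perm (Pt t m)) where
  carrier := {σ | ∀ x, (σ x).row = x.row}
  mul_mem' := by
    intro a b ha hb x
    change (a (b x)).row = x.row
    rw [ha, hb]
  one_mem' := fun x => rfl
  inv_mem' := by
    intro a ha x
    have := ha (a⁻¹ x)
    rw [← this]
    simp

/-- the column group -/
def C (t m : ℕ) : Subgroup (Equiv.Perm (Pt t m)) where
  carrier := {σ | ∀ x, (σ x).col = x.col}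
  mul_mem' := by
    intro a b ha hb x
    change (a (b x)).col = x.col
    rw [ha, hb]
  one_mem' := fun x => rfl
  inv_mem' := by
    intro a ha x
    have := ha (a⁻¹ x)
    rw [← this]
    simp

lemma mem_R {σ : Equiv.Perm (Pt t m)} : σ ∈ R t m ↔ ∀ x, (σ x).row = x.row := Iff.rfl
lemma mem_C {σ : Equiv.Perm (Pt t m)} : σ ∈ C t m ↔ ∀ x, (σ x).col = x.col := Iff.rfl

/-- permutations of the cells act on the points -/
def thick (m : ℕ) (σ : Equiv.Perm (Cell t)) : Equiv.Perm (Pt t m) :=
  Equiv.prodCongr σ (Equiv.refl (Fin m))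

/-- permutations of the cells act on the points -/
def thickHom (t m : ℕ) : Equiv.Perm (Cell t) →* Equiv.Perm (Pt t m) where
  toFun := thick m
  map_one' := rfl
  map_mul' _ _ := rfl

lemma sum_perm {M : Type*} [AddCommMonoid M] (σ : Equiv.Perm (Pt t m)) (f : Pt t m → M) :
    ∑ x, f (σ x) = ∑ x, f x := Equiv.sum_comp σ f

/-- If `∑ row x * row (σ x) = ∑ (row x)^2` then `σ` preserves the rows. -/
lemma rows_eq (σ : Equiv.Perm (Pt t m))
    (h : ∑ x : Pt t m, (x.row : ℤ) * (σ x).row = ∑ x : Pt t m, (x.row : ℤ) * x.row) (x : Pt t m) :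
    (σ x).row = x.row := by
  have h1 : ∑ x : Pt t m, ((σ x).row : ℤ) * (σ x).row = ∑ x : Pt t m, (x.row : ℤ) * x.row :=
    sum_perm σ fun x => (x.row : ℤ) * x.row
  have h2 : ∑ x : Pt t m, (((σ x).row : ℤ) - x.row) ^ 2 = 0 := by
    have : ∀ x : Pt t m, (((σ x).row : ℤ) - x.row) ^ 2 =
        ((σ x).row : ℤ) * (σ x).row - 2 * ((x.row : ℤ) * (σ x).row) + (x.row : ℤ) * x.row := by
      intro x; ring
    simp only [this, Finset.sum_add_distrib, Finset.sum_sub_distrib, ← Finset.mul_sum, h, h1]
    ring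
  have h3 := (Finset.sum_eq_zero_iff_of_nonneg (fun x _ => sq_nonneg _)).1 h2 x (Finset.mem_univ _)
  have h4 : ((σ x).row : ℤ) - x.row = 0 := by simpa using h3
  omega

lemma sum_row_col (r : Equiv.Perm (Pt t m)) (hr : r ∈ R t m) :
    ∑ x : Pt t m, (x.row : ℤ) * (r x).col = ∑ x : Pt t m, (x.row : ℤ) * x.col := by
  have : ∀ x : Pt t m, (x.row : ℤ) * (r x).col = ((r x).row : ℤ) * (r x).col := by
    intro x; rw [hr x]
  simp only [this]
  exact sum_perm r fun x => (x.row : ℤ) * x.col

lemma Y_inter (hm : 0 < m) {σ : Equiv.Perm (Cell t)} (hy : σ ∈ Cell.Y t)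
    (h : ∃ c ∈ C t m, ∃ r ∈ R t m, thickHom t m σ = c * r) : σ = 1 := by
  obtain ⟨c, hc, r, hr, he⟩ := h
  have hyy : ∀ x : Pt t m, (thickHom t m σ x).row + (thickHom t m σ x).col = x.row + x.col :=
    fun x => hy x.1
  rw [he] at hyy
  have h1 : ∀ x, ((c * r) x).col = (r x).col := fun x => hc (r x)
  have h2 : ∀ x, ((c * r) x).row + ((r x)).col = x.row + x.col := by
    intro x
    have := hyy x
    rw [h1] at this
    exact this
  have h3 := sum_row_col r hr
  have h4 : ∀ x, ((c * r) x).row = x.row := by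
    apply rows_eq
    have h5 : ∀ x : Pt t m, (x.row : ℤ) * ((c * r) x).row =
        (x.row : ℤ) * x.row + (x.row : ℤ) * x.col - (x.row : ℤ) * (r x).col := by
      intro x
      have : (((c * r) x).row : ℤ) + (r x).col = x.row + x.col := by exact_mod_cast h2 x
      have h6 : (((c * r) x).row : ℤ) = x.row + x.col - (r x).col := by linarith
      rw [h6]; ring
    simp only [h5, Finset.sum_add_distrib, Finset.sum_sub_distrib, h3]
    ring
  ext1 x
  have h7 := h4 (x, ⟨0, hm⟩)
  have h8 := hyy (x, ⟨0, hm⟩)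
  rw [h7] at h8
  rw [← he] at h7 h8
  exact Cell.ext' h7 (Nat.add_left_cancel h8)

lemma rev_prop {c : Equiv.Perm (Pt t m)} (hc : c ∈ C t m)
    (h : ∃ c' ∈ C t m, ∃ r ∈ R t m, thick m (Cell.rev t) * c = c' * r) : c ∈ R t m := by
  obtain ⟨c', hc', r, hr, he⟩ := h
  have h1 : ∀ x, (r x).col + (c x).row + x.col = t - 1 := by
    intro x
    have h2 : (thick m (Cell.rev t) (c x)).col = t - 1 - (c x).row - (c x).col := rfl
    have h3 : thick m (Cell.rev t) (c x) = c' (r x) := by
      have := congrArg (fun σ : Equiv.Perm (Pt t m) => σ x) he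
      simpa using this
    have h4 : (c' (r x)).col = (r x).col := hc' (r x)
    have h5 : (c x).col = x.col := hc x
    rw [h3, h4, h5] at h2
    have h6 := (c x).lt
    rw [h5] at h6
    omega
  have h1' : ∀ x : Pt t m, (thick m (Cell.rev t) x).col + x.row + x.col = t - 1 := by
    intro x
    have h2 : (thick m (Cell.rev t) x).col = t - 1 - x.row - x.col := rfl
    have h6 := x.lt
    omega
  have h3 := sum_row_col r hr
  have h3' := sum_row_col (thick m (Cell.rev t)) (fun x => rfl)
  apply rows_eq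
  have h5 : ∀ x : Pt t m, (x.row : ℤ) * (c x).row =
      (x.row : ℤ) * (t - 1 : ℕ) - (x.row : ℤ) * x.col - (x.row : ℤ) * (r x).col := by
    intro x
    have : ((r x).col : ℤ) + (c x).row + x.col = (t - 1 : ℕ) := by exact_mod_cast h1 x
    have h6 : ((c x).row : ℤ) = (t - 1 : ℕ) - x.col - (r x).col := by linarith
    rw [h6]; ring
  have h5' : ∀ x : Pt t m, (x.row : ℤ) * x.row =
      (x.row : ℤ) * (t - 1 : ℕ) - (x.row : ℤ) * x.col -
        (x.row : ℤ) * (thick m (Cell.rev t) x).col := by
    intro x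
    have : ((thick m (Cell.rev t) x).col : ℤ) + x.row + x.col = (t - 1 : ℕ) := by
      exact_mod_cast h1' x
    have h6 : (x.row : ℤ) = (t - 1 : ℕ) - x.col - (thick m (Cell.rev t) x).col := by linarith
    calc (x.row : ℤ) * x.row =
        (x.row : ℤ) * ((t - 1 : ℕ) - x.col - (thick m (Cell.rev t) x).col) := by rw [← h6]
      _ = _ := by ring
  simp only [h5, h5', Finset.sum_sub_distrib, h3, h3']

/-- sums over fibres -/
lemma sum_fib (Φ : Pt t m → ℕ × ℕ) (P : Finset (ℕ × ℕ)) (hP : ∀ x, Φ x ∈ P) (w : ℕ × ℕ → ℤ) :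
    ∑ x, w (Φ x) = ∑ p ∈ P, ((Finset.univ.filter fun x => Φ x = p).card : ℤ) * w p := by
  classical
  have h1 := Finset.sum_fiberwise_of_maps_to (s := (Finset.univ : Finset (Pt t m))) (t := P)
    (g := Φ) (fun x _ => hP x) (fun x => w (Φ x))
  rw [← h1]
  refine Finset.sum_congr rfl fun p _ => ?_
  rw [Finset.sum_congr rfl (g := fun _ => w p) (by
    intro x hx
    rw [(Finset.mem_filter.1 hx).2])]
  rw [Finset.sum_const, nsmul_eq_mul]

/-- the potential argument -/
lemma fib_eq (f : Pt t m → ℕ) (hf : ∑ x, (f x : ℤ) = ∑ x : Pt t m, (x.row : ℤ))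
    (hle : ∀ p : ℕ × ℕ, (Finset.univ.filter fun x : Pt t m => (f x, x.col) = p).card ≤ m)
    (p : ℕ × ℕ) :
    (Finset.univ.filter fun x : Pt t m => (f x, x.col) = p).card =
      (Finset.univ.filter fun x : Pt t m => (x.row, x.col) = p).card := by
  classical
  let Φ : Pt t m → ℕ × ℕ := fun x => (f x, x.col)
  let Ψ : Pt t m → ℕ × ℕ := fun x => (x.row, x.col)
  let P : Finset (ℕ × ℕ) := insert p (Finset.univ.image Φ ∪ Finset.univ.image Ψ)
  have hPΦ : ∀ x, Φ x ∈ P := fun x => Finset.mem_insert_of_mem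
    (Finset.mem_union_left _ (Finset.mem_image_of_mem _ (Finset.mem_univ x)))
  have hPΨ : ∀ x, Ψ x ∈ P := fun x => Finset.mem_insert_of_mem
    (Finset.mem_union_right _ (Finset.mem_image_of_mem _ (Finset.mem_univ x)))
  have hΨ : ∀ q : ℕ × ℕ, (Finset.univ.filter fun x : Pt t m => Ψ x = q).card =
      if q.1 + q.2 < t then m else 0 := by
    intro q
    split_ifs with hq
    · have h1 : (Finset.univ.filter fun x : Pt t m => Ψ x = q) =
          (Finset.univ : Finset (Fin m)).image (fun v => ((Cell.mk q.1 q.2 hq, v) : Pt t m)) := by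
        ext x
        simp only [Finset.mem_filter, Finset.mem_univ, true_and, Finset.mem_image]
        constructor
        · intro h
          refine ⟨x.2, ?_⟩
          apply Prod.ext
          · exact Cell.ext' (congrArg Prod.fst h).symm (congrArg Prod.snd h).symm
          · rfl
        · rintro ⟨v, rfl⟩
          rfl
      rw [h1, Finset.card_image_of_injective]
      · simp
      · intro a b h
        exact congrArg Prod.snd h
    · rw [Finset.card_eq_zero, Finset.filter_eq_empty_iff]
      intro x _ h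
      apply hq
      rw [← h]
      exact x.lt
  let w : ℕ × ℕ → ℤ := fun q => 2 * ((q.1 : ℤ) + q.2) - (2 * t - 1)
  have e1 := sum_fib Φ P hPΦ w
  have e2 := sum_fib Ψ P hPΨ w
  have e3 : ∑ x, w (Φ x) = ∑ x, w (Ψ x) := by
    simp only [w, Φ, Ψ, Finset.sum_sub_distrib, mul_add, Finset.sum_add_distrib, ← Finset.mul_sum]
    rw [hf]
  have e4 : ∑ q ∈ P, (((Finset.univ.filter fun x => Φ x = q).card : ℤ) -
      ((Finset.univ.filter fun x => Ψ x = q).card : ℤ)) * w q = 0 := by
    simp only [sub_mul, Finset.sum_sub_distrib]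
    rw [← e1, ← e2, e3, sub_self]
  have e5 : ∀ q ∈ P, 0 ≤ (((Finset.univ.filter fun x => Φ x = q).card : ℤ) -
      ((Finset.univ.filter fun x => Ψ x = q).card : ℤ)) * w q := by
    intro q _
    have h1 := hΨ q
    have h2 := hle q
    have h2' : ((Finset.univ.filter fun x => Φ x = q).card : ℤ) ≤ m := by exact_mod_cast h2
    by_cases hq : q.1 + q.2 < t
    · rw [if_pos hq] at h1
      rw [h1]
      refine mul_nonneg_of_nonpos_of_nonpos (by linarith) ?_
      have : (q.1 : ℤ) + q.2 < t := by exact_mod_cast hq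
      simp only [w]; linarith
    · rw [if_neg hq] at h1
      rw [h1]
      refine mul_nonneg (by simp) ?_
      have : (t : ℤ) ≤ (q.1 : ℤ) + q.2 := by exact_mod_cast not_lt.1 hq
      simp only [w]; linarith
  have e6 := (Finset.sum_eq_zero_iff_of_nonneg e5).1 e4 p (Finset.mem_insert_self _ _)
  have hw : w p ≠ 0 := by
    simp only [w]; omega
  rcases mul_eq_zero.1 e6 with h | h
  · exact_mod_cast sub_eq_zero.1 h
  · exact absurd h hw

/-- a cycle through `p` given distinct points -/
lemma exists_cycle {X : Type*} [DecidableEq X] [Fintype X] (p : ℕ) (hp : 1 < p) (s : Finset X)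
    (hs : p ≤ s.card) : ∃ q : Equiv.Perm X, q ≠ 1 ∧ q ^ p = 1 ∧ ∀ x, x ∉ s → q x = x := by
  obtain ⟨s', hs', hcard⟩ := Finset.exists_subset_card_eq hs
  obtain ⟨q, hq, hq2⟩ : ∃ q : Equiv.Perm X, q.IsCycle ∧ q.support = s' := by
    have h2 : s'.toList.Nodup := Finset.nodup_toList s'
    have h3 : 2 ≤ s'.toList.length := by rw [Finset.length_toList]; omega
    refine ⟨s'.toList.formPerm, List.isCycle_formPerm h2 h3, ?_⟩
    rw [List.support_formPerm_of_nodup _ h2 (by
      intro x hx
      rw [hx] at h3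
      simp at h3)]
    simp
  refine ⟨q, hq.ne_one, ?_, ?_⟩
  · rw [← hcard, ← hq2, ← hq.orderOf, pow_orderOf_eq_one]
  · intro x hx
    have : x ∉ q.support := by
      rw [hq2]; exact fun h => hx (hs' h)
    simpa using this

lemma vn_prop (p : ℕ) (hp : 1 < p) (hpm : p = m + 1) (g : Equiv.Perm (Pt t m)) :
    (∃ c ∈ C t m, ∃ r ∈ R t m, g = c * r) ∨
      (∃ q ∈ C t m, q ≠ 1 ∧ q ^ p = 1 ∧ g⁻¹ * q * g ∈ R t m) := by
  classical
  by_cases H : ∀ q : ℕ × ℕ,
      (Finset.univ.filter fun x : Pt t m => ((g⁻¹ x).row, x.col) = q).card ≤ m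
  · left
    have hfib := fib_eq (fun x => (g⁻¹ x).row) (sum_perm g⁻¹ fun x => (x.row : ℤ)) H
    let Φ : Pt t m → ℕ × ℕ := fun x => ((g⁻¹ x).row, x.col)
    let Ψ : Pt t m → ℕ × ℕ := fun x => (x.row, x.col)
    have he : ∀ q : ℕ × ℕ, Nonempty ({x // Φ x = q} ≃ {x // Ψ x = q}) := by
      intro q
      refine ⟨Fintype.equivOfCardEq ?_⟩
      rw [Fintype.card_subtype, Fintype.card_subtype]
      exact hfib q
    let c' : Equiv.Perm (Pt t m) := Equiv.ofFiberEquiv (f := Φ) (g := Ψ) fun q => (he q).some
    have hc : ∀ x, Ψ (c' x) = Φ x := fun x => Equiv.ofFiberEquiv_map _ x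
    have hc' : c' ∈ C t m := fun x => congrArg Prod.snd (hc x)
    have hr : c' * g ∈ R t m := by
      intro x
      have h1 : (c' (g x)).row = (g⁻¹ (g x)).row := congrArg Prod.fst (hc (g x))
      change (c' (g x)).row = x.row
      rw [h1]; simp
    exact ⟨c'⁻¹, (C t m).inv_mem hc', c' * g, hr, by group⟩
  · right
    push Not at H
    obtain ⟨q₀, hq₀⟩ := H
    obtain ⟨q, h1, h2, h3⟩ := exists_cycle p hp
      (Finset.univ.filter fun x : Pt t m => ((g⁻¹ x).row, x.col) = q₀) (by omega)
    have hin : ∀ x, ((g⁻¹ x).row, x.col) = q₀ → ((g⁻¹ (q x)).row, (q x).col) = q₀ := by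
      intro x hx
      by_contra hcon
      have h4 : q (q x) = q x := h3 (q x) (by simpa using hcon)
      have h5 : q x = x := q.injective h4
      rw [h5] at hcon
      exact hcon hx
    have hall : ∀ x, (g⁻¹ (q x)).row = (g⁻¹ x).row ∧ (q x).col = x.col := by
      intro x
      by_cases hx : ((g⁻¹ x).row, x.col) = q₀
      · have h4 := hin x hx
        rw [← hx] at h4
        exact ⟨congrArg Prod.fst h4, congrArg Prod.snd h4⟩
      · have : q x = x := h3 x (by simpa using hx)
        rw [this]
        exact ⟨rfl, rfl⟩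
    refine ⟨q, fun x => (hall x).2, h1, h2, ?_⟩
    intro x
    change (g⁻¹ (q (g x))).row = x.row
    rw [(hall (g x)).1]
    simp

lemma card_inter_dvd (t m : ℕ) :
    Nat.card (R t m ⊓ C t m : Subgroup (Equiv.Perm (Pt t m))) =
      ∏ _c : Cell t, (Fintype.card (Fin m)).factorial := by
  classical
  have h1 := DomMulAct.stabilizer_card (fun x : Pt t m => x.1)
  have h2 : Nat.card (R t m ⊓ C t m : Subgroup (Equiv.Perm (Pt t m))) =
      Fintype.card {g : Equiv.Perm (Pt t m) // (fun x : Pt t m => x.1) ∘ g = fun x => x.1} := by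
    rw [Nat.card_eq_fintype_card]
    refine Fintype.card_congr (Equiv.subtypeEquivRight fun σ => ?_)
    constructor
    · rintro ⟨hr, hc⟩
      funext x
      exact Cell.ext' (hr x) (hc x)
    · intro h
      constructor
      · intro x
        exact congrArg Cell.row (congrFun h x)
      · intro x
        exact congrArg Cell.col (congrFun h x)
  rw [h2, h1]
  refine Finset.prod_congr rfl fun c _ => ?_
  congr 1
  refine Fintype.card_congr ⟨fun x => x.1.2, fun v => ⟨(c, v), rfl⟩, ?_, ?_⟩
  · rintro ⟨⟨c', v⟩, h⟩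
    subst h
    rfl
  · intro v
    rfl

/-- the thick staircase has the properties of `Stair` -/
theorem stair (k : Type*) [Field k] (p : ℕ) [hp : Fact p.Prime] [CharP k p] (t : ℕ) :
    Stair k p (R t (p - 1)) (C t (p - 1)) (thick (p - 1) (Cell.rev t))
      (thick (p - 1) (Cell.tau t)) where
  inter := by
    rw [card_inter_dvd, Fintype.card_fin, Finset.prod_const, Nat.cast_pow]
    refine pow_ne_zero _ ?_
    intro h
    rw [CharP.cast_eq_zero_iff k p, hp.out.dvd_factorial] at h
    have := hp.out.one_lt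
    omega
  vn := vn_prop p hp.out.one_lt (by have := hp.out.one_lt; omega)
  rev := fun c hc h => rev_prop hc h
  revR := fun x => rfl
  tau := by
    ext1 x
    exact Prod.ext (Cell.ext' rfl rfl) rfl
  tauR := by
    intro r hr x
    exact hr (thick (p - 1) (Cell.tau t) x)
  tauC := by
    intro c hc x
    exact hc (thick (p - 1) (Cell.tau t) x)

end Pt

end Pool.Agent.Helper17.PF
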