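import Mathlib

/-!
# The pointed fusion system of a block: definitions

`𝒪` is a commutative ring, `G` a group, `𝒪G = MonoidAlgebra 𝒪 G`.
-/

namespace Pool.Agent.Helper17.PF

open MonoidAlgebra

/-- `e` is a primitive idempotent of the ring `T` (a subset of the ring `A` closed under addition and
multiplication): `e` is a nonzero idempotent of `T`, and the only idempotents `f` of `T` with
`ef = fe = f` are `0` and `e`. -/
def IsPrimitiveIdempotent {A : Type*} [Ring A] (T : Set A) (e : A) : Prop :=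
  e ∈ T ∧ e * e = e ∧ e ≠ 0 ∧ ∀ f ∈ T, f * f = f → e * f = f → f * e = f → f = 0 ∨ f = e

variable {𝒪 : Type*} [CommRing 𝒪] {G : Type*} [Group G]

/-- `b` is a block (idempotent) of `𝒪G`: a primitive idempotent of the centre of `𝒪G`. -/
def IsBlock (b : MonoidAlgebra 𝒪 G) : Prop :=
  IsPrimitiveIdempotent (Set.center (MonoidAlgebra 𝒪 G)) b

/-- The ring `𝓑^P` of the elements of the block algebra `𝓑 = 𝒪Gb` (`b` a block) which are fixed by
the conjugation with the elements of `P`. -/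
def fixedPoints (b : MonoidAlgebra 𝒪 G) (P : Subgroup G) : Set (MonoidAlgebra 𝒪 G) :=
  {x | x * b = x ∧ ∀ u ∈ P, single u (1 : 𝒪) * x * single u⁻¹ (1 : 𝒪) = x}

/-- `γ` is a point of `P` on `𝓑 = 𝒪Gb`: the conjugacy class, under the units of `𝓑^P`, of a
primitive idempotent of `𝓑^P`. -/
def IsPoint (b : MonoidAlgebra 𝒪 G) (P : Subgroup G) (γ : Set (MonoidAlgebra 𝒪 G)) : Prop :=
  ∃ i, IsPrimitiveIdempotent (fixedPoints b P) i ∧
    γ = {j | ∃ u ∈ fixedPoints b P, ∃ v ∈ fixedPoints b P, u * v = b ∧ v * u = b ∧ j = u * i * v}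

/-- The Brauer map `br_P`, with values in `𝔽C_G(P)`, where `𝔽` is the residue field of `𝒪`: forget
the coefficients at the elements outside `C_G(P)` and reduce the others to `𝔽`. (It is a ring
homomorphism on the fixed points of `P`.) -/
noncomputable def br [IsLocalRing 𝒪] (P : Subgroup G) (x : MonoidAlgebra 𝒪 G) :
    MonoidAlgebra (IsLocalRing.ResidueField 𝒪) (Subgroup.centralizer (P : Set G)) :=
  ofCoeff ((x.coeff.comapDomain Subtype.val Subtype.val_injective.injOn).mapRange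
    (IsLocalRing.residue 𝒪) (map_zero _))

/-- `D` is a defect group of the block `b`: a maximal `p`-subgroup with `br_D(b) ≠ 0`. -/
def IsDefectGroup [IsLocalRing 𝒪] (p : ℕ) (b : MonoidAlgebra 𝒪 G) (D : Subgroup G) : Prop :=
  IsPGroup p D ∧ br D b ≠ 0 ∧
    ∀ P : Subgroup G, IsPGroup p P → br P b ≠ 0 → D ≤ P → P = D

/-- `i` is a source idempotent of the block `b` with defect group `D`: a primitive idempotent of
`𝓑^D` with `br_D(i) ≠ 0`. Then `B = i𝒪Gi` is a source `D`-algebra of `𝓑 = 𝒪Gb`, and `1_B = i`. -/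
def IsSourceIdempotent [IsLocalRing 𝒪] (b : MonoidAlgebra 𝒪 G) (D : Subgroup G)
    (i : MonoidAlgebra 𝒪 G) : Prop :=
  IsPrimitiveIdempotent (fixedPoints b D) i ∧ br D i ≠ 0

/-- `(P, γ)` is an object of the pointed fusion system `𝓛𝓟(B)`, `B = i𝒪Gi`: `γ` is a point of `P` on
`𝓑 = 𝒪Gb`, it is local (`br_P(γ) ≠ 0`) and overshadowed by `B`: `P ≤ D` and `br_P(γ)` is contained
in `𝔽C_G(P)e_P`, where `e_P` is the block of `𝔽C_G(P)` with `br_P(i)` in `𝔽C_G(P)e_P`. -/
def IsObject [IsLocalRing 𝒪] (b : MonoidAlgebra 𝒪 G) (D : Subgroup G) (i : MonoidAlgebra 𝒪 G)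
    (P : Subgroup G) (γ : Set (MonoidAlgebra 𝒪 G)) : Prop :=
  IsPoint b P γ ∧ (∀ j ∈ γ, br P j ≠ 0) ∧ P ≤ D ∧
    ∃ e, IsBlock e ∧ br P i * e = br P i ∧ ∀ j ∈ γ, br P j * e = br P j

/-- `n` is the multiplicity `m(Q_δ, P_γ)`, `Q ≤ P`: some `j ∈ γ` is the sum of a finite set `s` of
pairwise orthogonal primitive idempotents of `𝓑^Q`, and `n` is the number of the elements of `s`
which lie in `δ`. -/
def IsMultiplicity (b : MonoidAlgebra 𝒪 G) (Q : Subgroup G) (δ : Set (MonoidAlgebra 𝒪 G))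
    (P : Subgroup G) (γ : Set (MonoidAlgebra 𝒪 G)) (n : ℕ) : Prop :=
  Q ≤ P ∧ ∃ j ∈ γ, ∃ s : Finset (MonoidAlgebra 𝒪 G),
    (∀ e ∈ s, IsPrimitiveIdempotent (fixedPoints b Q) e) ∧
    (∀ e ∈ s, ∀ f ∈ s, e ≠ f → e * f = 0) ∧ ∑ e ∈ s, e = j ∧ n = ((s : Set _) ∩ δ).ncard

/-- `n` is a multiplicity `m(Q_δ, P_γ)` of the pointed fusion system `𝓛𝓟(B)` of a block `b` of `𝒪G`,
for some finite group `G`, with a defect group `D` of order `q`. -/
def Occurs (𝒪 : Type*) [CommRing 𝒪] [IsLocalRing 𝒪] (p q n : ℕ) : Prop :=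
  ∃ (G : Type) (_ : Group G) (_ : Finite G) (b i : MonoidAlgebra 𝒪 G) (D Q P : Subgroup G)
    (δ γ : Set (MonoidAlgebra 𝒪 G)),
    IsBlock b ∧ IsDefectGroup p b D ∧ Nat.card D = q ∧ IsSourceIdempotent b D i ∧
      IsObject b D i Q δ ∧ IsObject b D i P γ ∧ IsMultiplicity b Q δ P γ n

end Pool.Agent.Helper17.PF
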