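import Pool.Agent.Helper60.PF.Defs

set_option autoImplicit false

namespace Pool.Agent.Helper17.PF

open Pool.Agent.Helper60.PF

theorem card_le_rk {V : Type*} [NormedAddCommGroup V] {N : ℕ} (c : V → Fin N) (A T : Finset V)
    (o a : V)
    (h : ∀ x ∈ T, x ∈ A ∧ x ≠ o ∧ c (x - o) = c (a - o) ∧ ‖x - o‖ ≤ ‖a - o‖) :
    T.card ≤ rk c A o a := by
  classical
  unfold rk
  apply Finset.card_le_card
  intro x hx
  rw [Finset.mem_filter]
  exact h x hx

open Classical in
theorem fewClose : FewClose := by
  intro d N c A o S hS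
  set T := A.filter (fun a => a ≠ o ∧ (rk c A o a : ℝ) ≤ S) with hT
  have h1 : (T.card : ℝ) = ∑ j : Fin N, ((T.filter (fun a => c (a - o) = j)).card : ℝ) := by
    have := Finset.card_eq_sum_card_fiberwise (f := fun a => c (a - o)) (s := T)
      (t := Finset.univ) (fun x _ => Finset.mem_coe.2 (Finset.mem_univ _))
    rw [this]
    push_cast
    rfl
  rw [h1]
  have h2 : ∀ j : Fin N, ((T.filter (fun a => c (a - o) = j)).card : ℝ) ≤ S := by
    intro j
    by_cases hne : (T.filter (fun a => c (a - o) = j)).Nonempty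
    · obtain ⟨a, ha, hmax⟩ := Finset.exists_max_image _ (fun a => ‖a - o‖) hne
      rw [Finset.mem_filter, hT, Finset.mem_filter] at ha
      refine le_trans ?_ ha.1.2.2
      have h3 : (T.filter (fun a => c (a - o) = j)).card ≤ rk c A o a := by
        apply card_le_rk
        intro x hx
        have hx2 := hmax x hx
        rw [Finset.mem_filter, hT, Finset.mem_filter] at hx
        exact ⟨hx.1.1, hx.1.2.1, by rw [hx.2, ha.2], hx2⟩
      exact_mod_cast h3
    · rw [Finset.not_nonempty_iff_eq_empty.1 hne]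
      simpa using hS
  calc ∑ j : Fin N, ((T.filter (fun a => c (a - o) = j)).card : ℝ) ≤ ∑ _j : Fin N, S :=
        Finset.sum_le_sum fun j _ => h2 j
    _ = N * S := by simp

end Pool.Agent.Helper17.PF
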