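import Pool.Agent.Helper17.PF.Alg

/-!
# Idempotents of the group algebra over a complete local ring
-/

namespace Pool.Agent.Helper17.PF

open MonoidAlgebra IsLocalRing

set_option linter.unusedSectionVars false

variable {𝒪 : Type*} [CommRing 𝒪] {L : Type*} [Group L]

/-- the elements with all coefficients in the ideal `I` -/
def CI (L : Type*) [Group L] (I : Ideal 𝒪) : Submodule 𝒪 (MonoidAlgebra 𝒪 L) where
  carrier := {x | ∀ g, x.coeff g ∈ I}
  add_mem' := by
    intro a b ha hb g
    rw [coeff_add, Finsupp.add_apply]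
    exact I.add_mem (ha g) (hb g)
  zero_mem' := by intro g; simp
  smul_mem' := by
    intro c x hx g
    rw [coeff_smul, Finsupp.smul_apply]
    exact I.mul_mem_left c (hx g)

lemma mem_CI {I : Ideal 𝒪} {x : MonoidAlgebra 𝒪 L} : x ∈ CI L I ↔ ∀ g, x.coeff g ∈ I := Iff.rfl

lemma CI_mul {I J : Ideal 𝒪} {x y : MonoidAlgebra 𝒪 L} (hx : x ∈ CI L I) (hy : y ∈ CI L J) :
    x * y ∈ CI L (I * J) := by
  classical
  intro g
  rw [coeff_mul]
  refine Ideal.sum_mem _ fun a _ => Ideal.sum_mem _ fun b _ => ?_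
  dsimp only
  split_ifs
  · exact Ideal.mul_mem_mul (hx a) (hy b)
  · exact Ideal.zero_mem _

lemma CI_mul_left {I : Ideal 𝒪} (x : MonoidAlgebra 𝒪 L) {y : MonoidAlgebra 𝒪 L}
    (hy : y ∈ CI L I) : x * y ∈ CI L I := by
  have : x ∈ CI L (⊤ : Ideal 𝒪) := fun g => Submodule.mem_top
  have h := CI_mul this hy
  rwa [Ideal.top_mul] at h

lemma CI_mul_right {I : Ideal 𝒪} {x : MonoidAlgebra 𝒪 L} (y : MonoidAlgebra 𝒪 L)
    (hx : x ∈ CI L I) : x * y ∈ CI L I := by
  have : y ∈ CI L (⊤ : Ideal 𝒪) := fun g => Submodule.mem_top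
  have h := CI_mul hx this
  rwa [Ideal.mul_top] at h

lemma CI_mono {I J : Ideal 𝒪} (h : I ≤ J) : CI L I ≤ CI L J := fun _ hx g => h (hx g)

section complete

variable [IsLocalRing 𝒪] [IsAdicComplete (maximalIdeal 𝒪) 𝒪]

lemma haus {x : MonoidAlgebra 𝒪 L} (h : ∀ n, x ∈ CI L (maximalIdeal 𝒪 ^ n)) : x = 0 := by
  ext g
  refine IsHausdorff.haus (inferInstance : IsHausdorff (maximalIdeal 𝒪) 𝒪) _ fun n => ?_
  rw [SModEq.zero]
  simpa using h n g

lemma exists_limit [Finite L] (f : ℕ → MonoidAlgebra 𝒪 L)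
    (h : ∀ n, f (n + 1) - f n ∈ CI L (maximalIdeal 𝒪 ^ n)) :
    ∃ x, ∀ n, f n - x ∈ CI L (maximalIdeal 𝒪 ^ n) := by
  classical
  have hc : ∀ m n, m ≤ n → f n - f m ∈ CI L (maximalIdeal 𝒪 ^ m) := by
    intro m n hmn
    induction n, hmn using Nat.le_induction with
    | base => rw [sub_self]; exact Submodule.zero_mem _
    | succ n hmn ih =>
      have : f (n + 1) - f m = (f (n + 1) - f n) + (f n - f m) := by abel
      rw [this]
      exact Submodule.add_mem _ (CI_mono (Ideal.pow_le_pow_right hmn) (h n)) ih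
  have hlim : ∀ g : L, ∃ l : 𝒪, ∀ n, (f n).coeff g - l ∈ maximalIdeal 𝒪 ^ n := by
    intro g
    obtain ⟨l, hl⟩ := IsPrecomplete.prec (inferInstance : IsPrecomplete (maximalIdeal 𝒪) 𝒪)
      (f := fun n => (f n).coeff g) (by
        intro m n hmn
        rw [SModEq.sub_mem]
        have := hc m n hmn g
        rw [coeff_sub, Finsupp.sub_apply] at this
        have h2 := (maximalIdeal 𝒪 ^ m).neg_mem this
        rw [neg_sub] at h2
        simpa using h2)
    refine ⟨l, fun n => ?_⟩
    have := hl n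
    rw [SModEq.sub_mem] at this
    simpa using this
  choose l hl using hlim
  refine ⟨ofCoeff (Finsupp.equivFunOnFinite.symm l), fun n g => ?_⟩
  rw [coeff_sub, Finsupp.sub_apply]
  exact hl g n

variable (𝒪 L) in
/-- the reduction -/
noncomputable def red : MonoidAlgebra 𝒪 L →+* MonoidAlgebra (ResidueField 𝒪) L :=
  MonoidAlgebra.mapRingHom L (residue 𝒪)

lemma coeff_red (x : MonoidAlgebra 𝒪 L) (g : L) : (red 𝒪 L x).coeff g = residue 𝒪 (x.coeff g) := by
  unfold red
  rw [coeff_mapRingHom]

lemma red_single (g : L) : red 𝒪 L (single g 1) = single g 1 := by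
  unfold red
  rw [mapRingHom_single, map_one]

lemma red_eq_zero {x : MonoidAlgebra 𝒪 L} : red 𝒪 L x = 0 ↔ x ∈ CI L (maximalIdeal 𝒪) := by
  rw [mem_CI]
  constructor
  · intro h g
    have := congrArg (fun z => z.coeff g) h
    simp only [coeff_red, coeff_zero, Finsupp.coe_zero, Pi.zero_apply] at this
    exact (residue_eq_zero_iff _).1 this
  · intro h
    ext g
    rw [coeff_red, (residue_eq_zero_iff _).2 (h g)]
    simp

lemma red_surjective [Finite L] : Function.Surjective (red 𝒪 L) := by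
  classical
  intro y
  choose l hl using fun g : L => residue_surjective (y.coeff g)
  refine ⟨ofCoeff (Finsupp.equivFunOnFinite.symm l), ?_⟩
  ext g
  rw [coeff_red]
  exact hl g

/-- A nonzero idempotent has a nonzero reduction. -/
lemma idem_zero {e : MonoidAlgebra 𝒪 L} (he : e * e = e) (h : red 𝒪 L e = 0) : e = 0 := by
  rw [red_eq_zero] at h
  refine haus fun n => ?_
  induction n with
  | zero => intro g; simp
  | succ n ih =>
    rw [← he, pow_succ]
    exact CI_mul ih h

variable [Finite L]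

/-- Idempotents lift. -/
lemma lift_idem {e : MonoidAlgebra 𝒪 L} (he : e * e = e) {φ : MonoidAlgebra (ResidueField 𝒪) L}
    (h1 : φ * φ = φ) (h2 : red 𝒪 L e * φ = φ) (h3 : φ * red 𝒪 L e = φ) :
    ∃ f, f * f = f ∧ e * f = f ∧ f * e = f ∧ red 𝒪 L f = φ := by
  obtain ⟨y, hy⟩ := red_surjective (L := L) (𝒪 := 𝒪) φ
  let N : MonoidAlgebra 𝒪 L → MonoidAlgebra 𝒪 L := fun f => 3 * (f * f) - 2 * (f * f * f)
  let f : ℕ → MonoidAlgebra 𝒪 L := fun n => N^[n] (e * y * e)
  have hsucc : ∀ n, f (n + 1) = 3 * (f n * f n) - 2 * (f n * f n * f n) := by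
    intro n
    change N^[n + 1] (e * y * e) = _
    rw [Function.iterate_succ_apply']
  have hP : ∀ n, e * f n = f n ∧ f n * e = f n ∧ f n * f n - f n ∈ CI L (maximalIdeal 𝒪 ^ (n + 1)) ∧
      red 𝒪 L (f n) = φ := by
    intro n
    induction n with
    | zero =>
      have h0 : f 0 = e * y * e := rfl
      have hr : red 𝒪 L (f 0) = φ := by
        rw [h0, map_mul, map_mul, hy, h2, h3]
      refine ⟨?_, ?_, ?_, hr⟩
      · rw [h0, ← mul_assoc, ← mul_assoc, he]
      · rw [h0, mul_assoc, he]
      · rw [zero_add, pow_one, ← red_eq_zero, map_sub, map_mul, hr, h1, sub_self]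
    | succ n ih =>
      obtain ⟨i1, i2, i3, i4⟩ := ih
      refine ⟨?_, ?_, ?_, ?_⟩
      · rw [hsucc]
        have e1 : e * (3 * (f n * f n) - 2 * (f n * f n * f n)) =
            3 * ((e * f n) * f n) - 2 * ((e * f n) * f n * f n) := by noncomm_ring
        rw [e1, i1]
      · rw [hsucc]
        have e1 : (3 * (f n * f n) - 2 * (f n * f n * f n)) * e =
            3 * (f n * (f n * e)) - 2 * (f n * f n * (f n * e)) := by noncomm_ring
        rw [e1, i2]
      · rw [hsucc]
        have e1 : (3 * (f n * f n) - 2 * (f n * f n * f n)) *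
            (3 * (f n * f n) - 2 * (f n * f n * f n)) -
            (3 * (f n * f n) - 2 * (f n * f n * f n)) =
            (f n * f n - f n) * (f n * f n - f n) * (4 * (f n * f n) - 4 * f n - 3) := by
          noncomm_ring
        rw [e1]
        refine CI_mul_right _ ?_
        refine CI_mono ?_ (CI_mul i3 i3)
        rw [← pow_add]
        exact Ideal.pow_le_pow_right (by omega)
      · rw [hsucc]
        simp only [map_sub, map_mul, map_ofNat, i4, h1]
        noncomm_ring
  obtain ⟨x, hx⟩ := exists_limit f (by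
    intro n
    rw [hsucc]
    have e1 : 3 * (f n * f n) - 2 * (f n * f n * f n) - f n =
        (f n * f n - f n) * (1 - 2 * f n) := by noncomm_ring
    rw [e1]
    exact CI_mul_right _ (CI_mono (Ideal.pow_le_pow_right (by omega)) (hP n).2.2.1))
  have hx' : ∀ n, x - f n ∈ CI L (maximalIdeal 𝒪 ^ n) := by
    intro n
    have := (CI L (maximalIdeal 𝒪 ^ n)).neg_mem (hx n)
    rwa [neg_sub] at this
  refine ⟨x, ?_, ?_, ?_, ?_⟩
  · rw [← sub_eq_zero]
    refine haus fun n => ?_
    have e1 : x * x - x = x * (x - f n) + (x - f n) * f n + (f n * f n - f n) - (x - f n) := by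
      noncomm_ring
    rw [e1]
    refine Submodule.sub_mem _ (Submodule.add_mem _ (Submodule.add_mem _ (CI_mul_left _ (hx' n))
      (CI_mul_right _ (hx' n))) (CI_mono (Ideal.pow_le_pow_right (by omega)) (hP n).2.2.1)) (hx' n)
  · rw [← sub_eq_zero]
    refine haus fun n => ?_
    have e1 : e * x - x = e * (x - f n) - (x - f n) + (e * f n - f n) := by noncomm_ring
    rw [e1, (hP n).1, sub_self, add_zero]
    exact Submodule.sub_mem _ (CI_mul_left _ (hx' n)) (hx' n)
  · rw [← sub_eq_zero]
    refine haus fun n => ?_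
    have e1 : x * e - x = (x - f n) * e - (x - f n) + (f n * e - f n) := by noncomm_ring
    rw [e1, (hP n).2.1, sub_self, add_zero]
    exact Submodule.sub_mem _ (CI_mul_right _ (hx' n)) (hx' n)
  · have h5 := hx' 1
    rw [pow_one, ← red_eq_zero, map_sub, (hP 1).2.2.2, sub_eq_zero] at h5
    exact h5

lemma prim_red {e : MonoidAlgebra 𝒪 L} (he : IsPrim e) : IsPrim (red 𝒪 L e) where
  idem := by rw [← map_mul, he.idem]
  ne := fun h => he.ne (idem_zero he.idem h)
  prim := by
    intro φ h1 h2 h3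
    obtain ⟨f, hf, h4, h5, rfl⟩ := lift_idem he.idem h1 h2 h3
    rcases he.prim f hf h4 h5 with rfl | rfl
    · left; simp
    · right; rfl

lemma corner_unit {e w : MonoidAlgebra 𝒪 L} (he : e * e = e) (h1 : e * w = w) (h2 : w * e = w)
    (h3 : red 𝒪 L w = red 𝒪 L e) :
    ∃ v, e * v = v ∧ v * e = v ∧ w * v = e ∧ v * w = e := by
  let u := e - w
  have hu : u ∈ CI L (maximalIdeal 𝒪) := by
    rw [← red_eq_zero, map_sub, h3, sub_self]
  let v : ℕ → MonoidAlgebra 𝒪 L := fun n => Nat.rec 0 (fun _ x => e + u * x) n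
  have hv : ∀ n, v (n + 1) = e + u * v n := fun n => rfl
  have h0 : v 0 = 0 := rfl
  have hP : ∀ n, e * v n = v n ∧ v n * e = v n ∧ u * v n = v n * u ∧
      v (n + 1) - v n ∈ CI L (maximalIdeal 𝒪 ^ n) := by
    intro n
    induction n with
    | zero =>
      refine ⟨by rw [h0]; simp, by rw [h0]; simp, by rw [h0]; simp, ?_⟩
      intro g; simp
    | succ n ih =>
      obtain ⟨i1, i2, i3, i4⟩ := ih
      have eu : e * u = u := by
        change e * (e - w) = e - w
        rw [mul_sub, he, h1]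
      have ue : u * e = u := by
        change (e - w) * e = e - w
        rw [sub_mul, he, h2]
      refine ⟨?_, ?_, ?_, ?_⟩
      · rw [hv, mul_add, he, ← mul_assoc, eu]
      · rw [hv, add_mul, he, mul_assoc, i2]
      · rw [hv, mul_add, add_mul, ue, eu, mul_assoc, i3]
      · rw [hv (n + 1), hv n]
        have : e + u * (e + u * v n) - (e + u * v n) = u * (v (n + 1) - v n) := by
          rw [hv n]; noncomm_ring
        rw [this, pow_succ', ]
        exact CI_mul hu i4
  obtain ⟨x, hx⟩ := exists_limit v fun n => (hP n).2.2.2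
  have hx' : ∀ n, x - v n ∈ CI L (maximalIdeal 𝒪 ^ n) := by
    intro n
    have := (CI L (maximalIdeal 𝒪 ^ n)).neg_mem (hx n)
    rwa [neg_sub] at this
  have hwv : ∀ n, w * v n = e - (v (n + 1) - v n) := by
    intro n
    rw [hv]
    have : w = e - u := by change w = e - (e - w); abel
    rw [this, sub_mul, (hP n).1]
    abel
  have hvw : ∀ n, v n * w = e - (v (n + 1) - v n) := by
    intro n
    rw [hv]
    have : w = e - u := by change w = e - (e - w); abel
    rw [this, mul_sub, (hP n).2.1, (hP n).2.2.1]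
    abel
  refine ⟨x, ?_, ?_, ?_, ?_⟩
  · rw [← sub_eq_zero]
    refine haus fun n => ?_
    have e1 : e * x - x = e * (x - v n) - (x - v n) + (e * v n - v n) := by noncomm_ring
    rw [e1, (hP n).1, sub_self, add_zero]
    exact Submodule.sub_mem _ (CI_mul_left _ (hx' n)) (hx' n)
  · rw [← sub_eq_zero]
    refine haus fun n => ?_
    have e1 : x * e - x = (x - v n) * e - (x - v n) + (v n * e - v n) := by noncomm_ring
    rw [e1, (hP n).2.1, sub_self, add_zero]
    exact Submodule.sub_mem _ (CI_mul_right _ (hx' n)) (hx' n)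
  · rw [← sub_eq_zero]
    refine haus fun n => ?_
    have e1 : w * x - e = w * (x - v n) + (w * v n - e) := by noncomm_ring
    rw [e1, hwv]
    refine Submodule.add_mem _ (CI_mul_left _ (hx' n)) ?_
    have : e - (v (n + 1) - v n) - e = -(v (n + 1) - v n) := by abel
    rw [this]
    exact Submodule.neg_mem _ (hP n).2.2.2
  · rw [← sub_eq_zero]
    refine haus fun n => ?_
    have e1 : x * w - e = (x - v n) * w + (v n * w - e) := by noncomm_ring
    rw [e1, hvw]
    refine Submodule.add_mem _ (CI_mul_right _ (hx' n)) ?_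
    have : e - (v (n + 1) - v n) - e = -(v (n + 1) - v n) := by abel
    rw [this]
    exact Submodule.neg_mem _ (hP n).2.2.2

variable {V : Type*} [AddCommGroup V] [Module (ResidueField 𝒪) V]
  [FiniteDimensional (ResidueField 𝒪) V]

/-- Two primitive idempotents of `𝒪L` which do not kill the simple module `V` are equivalent. -/
lemma link (ρ : MonoidAlgebra (ResidueField 𝒪) L →ₐ[ResidueField 𝒪] Module.End (ResidueField 𝒪) V)
    (hρ : Function.Surjective ρ) {e f : MonoidAlgebra 𝒪 L} (he : IsPrim e) (hf : IsPrim f)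
    (h1 : ρ (red 𝒪 L e) ≠ 0) (h2 : ρ (red 𝒪 L f) ≠ 0) :
    ∃ x y : MonoidAlgebra 𝒪 L, e * x = x ∧ x * f = x ∧ f * y = y ∧ y * e = y ∧ x * y = e ∧
      y * x = f := by
  have hfin : FiniteDimensional (ResidueField 𝒪) (MonoidAlgebra (ResidueField 𝒪) L) :=
    inferInstance
  obtain ⟨x', y', a1, a2, a3, a4, a5, a6⟩ := (prim_red he).link ρ hρ (prim_red hf) h1 h2
  obtain ⟨x0, hx0⟩ := red_surjective (L := L) (𝒪 := 𝒪) x'
  obtain ⟨y0, hy0⟩ := red_surjective (L := L) (𝒪 := 𝒪) y'
  let x := e * x0 * f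
  let y := f * y0 * e
  have e1 : e * x = x := by change e * (e * x0 * f) = e * x0 * f; rw [← mul_assoc, ← mul_assoc, he.idem]
  have e2 : x * f = x := by change (e * x0 * f) * f = e * x0 * f; rw [mul_assoc, hf.idem]
  have e3 : f * y = y := by change f * (f * y0 * e) = f * y0 * e; rw [← mul_assoc, ← mul_assoc, hf.idem]
  have e4 : y * e = y := by change (f * y0 * e) * e = f * y0 * e; rw [mul_assoc, he.idem]
  have rx : red 𝒪 L x = x' := by
    change red 𝒪 L (e * x0 * f) = x'
    rw [map_mul, map_mul, hx0, a1, a2]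
  have ry : red 𝒪 L y = y' := by
    change red 𝒪 L (f * y0 * e) = y'
    rw [map_mul, map_mul, hy0, a3, a4]
  obtain ⟨w, hw1, hw2, hw3, hw4⟩ := corner_unit (e := e) (w := x * y) he.idem
    (by rw [← mul_assoc, e1]) (by rw [mul_assoc, e4]) (by rw [map_mul, rx, ry, a5])
  refine ⟨x, y * w, e1, e2, by rw [← mul_assoc, e3], by rw [mul_assoc, hw2],
    by rw [← mul_assoc, hw3], ?_⟩
  have hid : (y * w * x) * (y * w * x) = y * w * x := by
    calc (y * w * x) * (y * w * x) = y * w * (x * y * w) * x := by simp only [mul_assoc]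
      _ = y * w * e * x := by rw [hw3]
      _ = y * w * x := by rw [mul_assoc (y * w), e1]
  rcases hf.prim (y * w * x) hid (by rw [mul_assoc y w, ← mul_assoc f, e3])
    (by rw [mul_assoc, e2]) with h | h
  · exfalso
    apply he.ne
    have h5 : x * (y * w * x) * (y * w) = e := by
      calc x * (y * w * x) * (y * w) = (x * y * w) * (x * y * w) := by simp only [mul_assoc]
        _ = e := by rw [hw3, he.idem]
    rw [← h5, h]; simp
  · exact h

/-- orthogonal equivalent idempotents are conjugate -/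
lemma conj_of_link {R : Type*} [Ring R] {e f x y : R} (he : e * e = e) (hf : f * f = f)
    (hef : e * f = 0) (hfe : f * e = 0)
    (h1 : e * x = x) (h2 : x * f = x) (h3 : f * y = y) (h4 : y * e = y) (h5 : x * y = e)
    (h6 : y * x = f) : ∃ u : R, u * u = 1 ∧ e = u * f * u := by
  have xx : x * x = 0 := by
    calc x * x = (x * f) * (e * x) := by rw [h2, h1]
      _ = x * (f * e) * x := by simp only [mul_assoc]
      _ = 0 := by rw [hfe]; simp
  have yy : y * y = 0 := by
    calc y * y = (y * e) * (f * y) := by rw [h4, h3]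
      _ = y * (e * f) * y := by simp only [mul_assoc]
      _ = 0 := by rw [hef]; simp
  have xe : x * e = 0 := by
    calc x * e = (x * f) * e := by rw [h2]
      _ = 0 := by rw [mul_assoc, hfe, mul_zero]
  have fx : f * x = 0 := by
    calc f * x = f * (e * x) := by rw [h1]
      _ = 0 := by rw [← mul_assoc, hfe, zero_mul]
  have ey : e * y = 0 := by
    calc e * y = e * (f * y) := by rw [h3]
      _ = 0 := by rw [← mul_assoc, hef, zero_mul]
  have yf : y * f = 0 := by
    calc y * f = (y * e) * f := by rw [h4]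
      _ = 0 := by rw [mul_assoc, hef, mul_zero]
  refine ⟨x + y + (1 - e - f), ?_, ?_⟩
  · simp only [mul_add, add_mul, mul_sub, sub_mul, mul_one, one_mul, xx, yy, xe, fx, ey, yf, h1, h2,
      h3, h4, h5, h6, he, hf, hef, hfe]
    abel
  · have h7 : (x + y + (1 - e - f)) * f = x := by
      simp only [add_mul, sub_mul, one_mul, h2, yf, hf, hef]
      abel
    rw [h7]
    simp only [mul_add, mul_sub, mul_one, xx, h5, xe, h2]
    abel

/-- There is a decomposition of `1` into primitive idempotents. -/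
lemma exists_decomp : ∃ s : Finset (MonoidAlgebra 𝒪 L), (∀ e ∈ s, IsPrim e) ∧
    (∀ e ∈ s, ∀ f ∈ s, e ≠ f → e * f = 0) ∧ ∑ e ∈ s, e = 1 := by
  classical
  have : Fintype L := Fintype.ofFinite L
  let P : Finset (MonoidAlgebra 𝒪 L) → Prop := fun s =>
    (∀ e ∈ s, e * e = e ∧ e ≠ 0) ∧ (∀ e ∈ s, ∀ f ∈ s, e ≠ f → e * f = 0) ∧ ∑ e ∈ s, e = 1
  have hbound : ∀ s, P s → s.card ≤ Module.finrank (ResidueField 𝒪) (MonoidAlgebra (ResidueField 𝒪) L) := by
    rintro s ⟨h1, h2, h3⟩
    have hli : LinearIndependent (ResidueField 𝒪) (fun e : s => red 𝒪 L e.1) := by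
      rw [Fintype.linearIndependent_iff]
      intro c hc e
      have h4 := congrArg (fun z => z * red 𝒪 L e.1) hc
      simp only [Finset.sum_mul, zero_mul, smul_mul_assoc, ← map_mul] at h4
      rw [Finset.sum_eq_single e] at h4
      · rw [(h1 e.1 e.2).1] at h4
        rcases smul_eq_zero.1 h4 with h | h
        · exact h
        · exact absurd (idem_zero (h1 e.1 e.2).1 h) (h1 e.1 e.2).2
      · intro f _ hf
        rw [h2 f.1 f.2 e.1 e.2 (fun h => hf (Subtype.ext h)), map_zero, smul_zero]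
      · simp
    have := hli.fintype_card_le_finrank
    simpa using this
  have hne : ∃ n, ∃ s, P s ∧ s.card = n := by
    refine ⟨1, {1}, ⟨?_, ?_, ?_⟩, by simp⟩
    · intro e he
      rw [Finset.mem_singleton] at he
      subst he
      exact ⟨by simp, one_ne_zero⟩
    · intro e he f hf hef
      rw [Finset.mem_singleton] at he hf
      exact absurd (he.trans hf.symm) hef
    · simp
  let N := Module.finrank (ResidueField 𝒪) (MonoidAlgebra (ResidueField 𝒪) L)
  obtain ⟨n, ⟨s, hs, hn⟩, hmax⟩ : ∃ n, (∃ s, P s ∧ s.card = n) ∧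
      ∀ m, (∃ s, P s ∧ s.card = m) → m ≤ n := by
    have hb : ∀ m, (∃ s, P s ∧ s.card = m) → m ≤ N := by
      rintro m ⟨s, hs, rfl⟩
      exact hbound s hs
    obtain ⟨n, hn⟩ := hne
    have h5 := Nat.findGreatest_spec (P := fun m => ∃ s, P s ∧ s.card = m) (hb n hn) hn
    refine ⟨_, h5, fun m hm => ?_⟩
    exact Nat.le_findGreatest (hb m hm) hm
  refine ⟨s, ?_, hs.2.1, hs.2.2⟩
  intro e he
  obtain ⟨h1, h2, h3⟩ := hs
  refine ⟨(h1 e he).1, (h1 e he).2, ?_⟩
  intro f hf hef hfe
  by_contra hcon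
  push Not at hcon
  have hg : (e - f) * (e - f) = e - f := by
    rw [mul_sub, sub_mul, sub_mul, (h1 e he).1, hef, hfe, hf]; abel
  have hg0 : e - f ≠ 0 := fun h => hcon.2 (sub_eq_zero.1 h).symm
  have hfg : f * (e - f) = 0 := by rw [mul_sub, hfe, hf, sub_self]
  have hgf : (e - f) * f = 0 := by rw [sub_mul, hef, hf, sub_self]
  have hforth : ∀ c ∈ s, c ≠ e → c * f = 0 ∧ f * c = 0 := by
    intro c hc hce
    constructor
    · rw [← hef, ← mul_assoc, h2 c hc e he hce, zero_mul]
    · rw [← hfe, mul_assoc, h2 e he c hc hce.symm, mul_zero]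
  have hgorth : ∀ c ∈ s, c ≠ e → c * (e - f) = 0 ∧ (e - f) * c = 0 := by
    intro c hc hce
    constructor
    · rw [mul_sub, h2 c hc e he hce, (hforth c hc hce).1, sub_self]
    · rw [sub_mul, h2 e he c hc hce.symm, (hforth c hc hce).2, sub_self]
  have hfs : f ∉ s.erase e := by
    intro h
    rw [Finset.mem_erase] at h
    have := (hforth f h.2 h.1).1
    rw [hf] at this
    exact hcon.1 this
  have hgs : (e - f) ∉ insert f (s.erase e) := by
    intro h
    rw [Finset.mem_insert] at h
    rcases h with h | h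
    · rw [h, hf] at hfg
      exact hcon.1 hfg
    · rw [Finset.mem_erase] at h
      have := (hgorth _ h.2 h.1).1
      rw [hg] at this
      exact hg0 this
  have hcard : (insert (e - f) (insert f (s.erase e))).card = n + 1 := by
    rw [Finset.card_insert_of_notMem hgs, Finset.card_insert_of_notMem hfs,
      Finset.card_erase_of_mem he, hn]
    have : 0 < s.card := Finset.card_pos.2 ⟨e, he⟩
    omega
  have := hmax (n + 1) ⟨_, ⟨?_, ?_, ?_⟩, hcard⟩
  · omega
  · intro c hc
    rw [Finset.mem_insert, Finset.mem_insert, Finset.mem_erase] at hc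
    rcases hc with rfl | rfl | ⟨_, hc⟩
    · exact ⟨hg, hg0⟩
    · exact ⟨hf, hcon.1⟩
    · exact h1 c hc
  · intro c hc d hd hcd
    rw [Finset.mem_insert, Finset.mem_insert, Finset.mem_erase] at hc hd
    rcases hc with rfl | rfl | ⟨hce, hc⟩
    · rcases hd with rfl | rfl | ⟨hde, hd⟩
      · exact absurd rfl hcd
      · exact hgf
      · exact (hgorth d hd hde).2
    · rcases hd with rfl | rfl | ⟨hde, hd⟩
      · exact hfg
      · exact absurd rfl hcd
      · exact (hforth d hd hde).2
    · rcases hd with rfl | rfl | ⟨hde, hd⟩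
      · exact (hgorth c hc hce).1
      · exact (hforth c hc hce).1
      · exact h2 c hc d hd hcd
  · rw [Finset.sum_insert hgs, Finset.sum_insert hfs]
    have h6 := Finset.add_sum_erase s (fun x => x) he
    rw [h3] at h6
    rw [← add_assoc, sub_add_cancel]
    exact h6

end complete

end Pool.Agent.Helper17.PF
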