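import Pool.Agent.Helper17.PF.Defs
import Pool.Agent.Helper17.PF.Grp
import Pool.Agent.Helper17.PF.Lift

/-!
# The block of a group with a self-centralising abelian normal `p`-subgroup
-/

namespace Pool.Agent.Helper17.PF

open MonoidAlgebra IsLocalRing

set_option linter.unusedSectionVars false

variable {𝒪 : Type*} [CommRing 𝒪] [IsLocalRing 𝒪] {L : Type*} [Group L]

/-- The hypotheses on the subgroup `A`. -/
structure SelfCent (p : ℕ) (A : Subgroup L) : Prop where
  normal : A.Normal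
  pgroup : IsPGroup p A
  comm : ∀ a ∈ A, ∀ b ∈ A, a * b = b * a
  cent : ∀ g : L, (∀ a ∈ A, a * g = g * a) → g ∈ A

lemma isBlock_one_of {F : Type*} [Field F] {p : ℕ} [Fact p.Prime] [CharP F p] [Finite L]
    {A : Subgroup L} (h : SelfCent p A) : IsBlock (1 : MonoidAlgebra F L) := by
  have := h.normal
  refine ⟨Set.one_mem_center, by simp, one_ne_zero, ?_⟩
  intro f hf hff _ _
  refine idem_trivial A h.pgroup h.comm h.cent f hff fun a _ => ?_
  exact ((Set.mem_center_iff.1 hf).comm (single a 1)).eq.symm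

lemma fixedPoints_comm {b x : MonoidAlgebra 𝒪 L} {P : Subgroup L} (hx : x ∈ fixedPoints b P)
    {a : L} (ha : a ∈ P) : single a (1 : 𝒪) * x = x * single a 1 := by
  have h := hx.2 a ha
  calc single a (1 : 𝒪) * x = single a (1 : 𝒪) * x * single a⁻¹ 1 * single a 1 := by
        rw [mul_assoc, single_mul_single]; simp [← one_def]
    _ = x * single a 1 := by rw [h]

lemma mem_fixedPoints_one {x : MonoidAlgebra 𝒪 L} {P : Subgroup L}
    (h : ∀ a ∈ P, single a (1 : 𝒪) * x = x * single a 1) : x ∈ fixedPoints 1 P := by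
  refine ⟨mul_one x, fun a ha => ?_⟩
  rw [h a ha, mul_assoc, single_mul_single]
  simp [← one_def]

lemma mem_fixedPoints_bot (x : MonoidAlgebra 𝒪 L) :
    x ∈ fixedPoints (1 : MonoidAlgebra 𝒪 L) (⊥ : Subgroup L) := by
  refine mem_fixedPoints_one fun a ha => ?_
  rw [Subgroup.mem_bot.1 ha, ← one_def]; simp

lemma br_one (P : Subgroup L) : br P (1 : MonoidAlgebra 𝒪 L) = 1 := by
  classical
  ext g
  change residue 𝒪 ((1 : MonoidAlgebra 𝒪 L).coeff (g : L)) = _
  rw [one_def, one_def, coeff_single, coeff_single, Finsupp.single_apply, Finsupp.single_apply]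
  by_cases h : (1 : L) = g
  · have h2 : (1 : Subgroup.centralizer (P : Set L)) = g := Subtype.ext h
    rw [if_pos h, if_pos h2, map_one]
  · have h2 : ¬ (1 : Subgroup.centralizer (P : Set L)) = g := fun h3 => h (congrArg Subtype.val h3)
    rw [if_neg h, if_neg h2, map_zero]

lemma br_bot_ne {j : MonoidAlgebra 𝒪 L} (h : ∃ g, residue 𝒪 (j.coeff g) ≠ 0) :
    br (⊥ : Subgroup L) j ≠ 0 := by
  obtain ⟨g, hg⟩ := h
  intro h0
  apply hg
  have hmem : g ∈ Subgroup.centralizer ((⊥ : Subgroup L) : Set L) := by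
    rw [Subgroup.mem_centralizer_iff]
    intro a ha
    have : a = 1 := by simpa using ha
    rw [this]; simp
  have := congrArg (fun z => z.coeff (⟨g, hmem⟩ : Subgroup.centralizer ((⊥ : Subgroup L) : Set L))) h0
  exact this

variable [IsAdicComplete (maximalIdeal 𝒪) 𝒪] [Finite L]

lemma trivial_idem {p : ℕ} [Fact p.Prime] [CharP (ResidueField 𝒪) p] {A : Subgroup L}
    (h : SelfCent p A) {e : MonoidAlgebra 𝒪 L} (he : e * e = e)
    (hA : ∀ a ∈ A, single a 1 * e = e * single a 1) : e = 0 ∨ e = 1 := by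
  have := h.normal
  rcases idem_trivial (F := ResidueField 𝒪) A h.pgroup h.comm h.cent (red 𝒪 L e)
    (by rw [← map_mul, he]) (by
      intro a ha
      rw [← red_single (𝒪 := 𝒪), ← map_mul, hA a ha, map_mul]) with h1 | h1
  · left
    exact idem_zero he h1
  · right
    have h2 : (1 - e) = 0 := by
      refine idem_zero ?_ ?_
      · rw [mul_sub, sub_mul, sub_mul, he]; simp
      · rw [map_sub, map_one, h1, sub_self]
    exact (sub_eq_zero.1 h2).symm

theorem main_gen {p : ℕ} [Fact p.Prime] [CharP (ResidueField 𝒪) p] {A : Subgroup L}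
    (h : SelfCent p A) (D : Sylow p L) (hAD : A ≤ D)
    {V : Type*} [AddCommGroup V] [Module (ResidueField 𝒪) V] [FiniteDimensional (ResidueField 𝒪) V]
    (ρ : MonoidAlgebra (ResidueField 𝒪) L →ₐ[ResidueField 𝒪] Module.End (ResidueField 𝒪) V)
    (hρ : Function.Surjective ρ) (hV : 0 < Module.finrank (ResidueField 𝒪) V) :
    IsBlock (1 : MonoidAlgebra 𝒪 L) ∧ IsDefectGroup p (1 : MonoidAlgebra 𝒪 L) (D : Subgroup L) ∧
    IsSourceIdempotent (1 : MonoidAlgebra 𝒪 L) (D : Subgroup L) 1 ∧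
    ∃ δ γ : Set (MonoidAlgebra 𝒪 L), ∃ n : ℕ,
      IsObject 1 (D : Subgroup L) 1 ⊥ δ ∧ IsObject 1 (D : Subgroup L) 1 (D : Subgroup L) γ ∧
      IsMultiplicity 1 ⊥ δ (D : Subgroup L) γ n ∧ Module.finrank (ResidueField 𝒪) V ≤ n := by
  classical
  have hprim1 : IsPrimitiveIdempotent (fixedPoints (1 : MonoidAlgebra 𝒪 L) (D : Subgroup L)) 1 := by
    refine ⟨mem_fixedPoints_one fun a _ => by simp, by simp, one_ne_zero, ?_⟩
    intro f hf hff _ _
    exact trivial_idem h hff fun a ha => fixedPoints_comm hf (hAD ha)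
  have hblockD : IsBlock (1 : MonoidAlgebra (ResidueField 𝒪)
      (Subgroup.centralizer ((D : Subgroup L) : Set L))) := by
    have hle : Subgroup.centralizer ((D : Subgroup L) : Set L) ≤ A := by
      intro g hg
      rw [Subgroup.mem_centralizer_iff] at hg
      exact h.cent g fun a ha => hg a (hAD ha)
    refine isBlock_one_of (p := p) (A := ⊤) ⟨inferInstance, ?_, ?_, fun g _ => Subgroup.mem_top g⟩
    · have h1 : IsPGroup p (Subgroup.centralizer ((D : Subgroup L) : Set L)) :=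
        h.pgroup.to_le hle
      exact h1.to_subgroup ⊤
    · intro a _ b _
      exact Subtype.ext (h.comm a (hle a.2) b (hle b.2))
  have hblockbot : IsBlock (1 : MonoidAlgebra (ResidueField 𝒪)
      (Subgroup.centralizer ((⊥ : Subgroup L) : Set L))) := by
    have hmem : ∀ g : L, g ∈ Subgroup.centralizer ((⊥ : Subgroup L) : Set L) := by
      intro g
      rw [Subgroup.mem_centralizer_iff]
      intro a ha
      have : a = 1 := by simpa using ha
      rw [this]; simp
    refine isBlock_one_of (p := p)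
      (A := A.subgroupOf (Subgroup.centralizer ((⊥ : Subgroup L) : Set L))) ⟨?_, ?_, ?_, ?_⟩
    · have := h.normal
      exact Subgroup.normal_subgroupOf
    · exact h.pgroup.comap_subtype
    · intro a ha b hb
      exact Subtype.ext (h.comm a ha b hb)
    · intro g hg
      refine h.cent g fun a ha => ?_
      have := hg ⟨a, hmem a⟩ ha
      exact congrArg Subtype.val this
  refine ⟨?_, ?_, ?_, ?_⟩
  · -- block
    refine ⟨Set.one_mem_center, by simp, one_ne_zero, ?_⟩
    intro f hf hff _ _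
    exact trivial_idem h hff fun a _ => ((Set.mem_center_iff.1 hf).comm (single a 1)).eq.symm
  · -- defect group
    refine ⟨D.isPGroup', ?_, ?_⟩
    · rw [br_one]; exact one_ne_zero
    · intro P hP _ hle
      exact D.is_maximal' hP hle
  · -- source idempotent
    exact ⟨hprim1, by rw [br_one]; exact one_ne_zero⟩
  -- the decomposition
  obtain ⟨s, hs1, hs2, hs3⟩ := exists_decomp (𝒪 := 𝒪) (L := L)
  let B : MonoidAlgebra 𝒪 L → Module.End (ResidueField 𝒪) V := fun e => ρ (red 𝒪 L e)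
  have hfin : FiniteDimensional (ResidueField 𝒪) (MonoidAlgebra (ResidueField 𝒪) L) :=
    inferInstance
  have hcard := card_ge (k := ResidueField 𝒪) (V := V) s B
    (by
      change ∑ i ∈ s, ρ (red 𝒪 L i) = 1
      rw [← map_sum, ← map_sum, hs3, map_one, map_one])
    (fun e he => (prim_red (hs1 e he)).finrank_range_le_one ρ hρ)
  have hne : (s.filter fun e => B e ≠ 0).Nonempty := by
    rw [← Finset.card_pos]
    omega
  obtain ⟨e₀, he₀⟩ := hne
  rw [Finset.mem_filter] at he₀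
  have hprim : ∀ e ∈ s, IsPrimitiveIdempotent (fixedPoints (1 : MonoidAlgebra 𝒪 L) ⊥) e := by
    intro e he
    exact ⟨mem_fixedPoints_bot e, (hs1 e he).idem, (hs1 e he).ne,
      fun f _ h1 h2 h3 => (hs1 e he).prim f h1 h2 h3⟩
  let δ : Set (MonoidAlgebra 𝒪 L) :=
    {j | ∃ u ∈ fixedPoints (1 : MonoidAlgebra 𝒪 L) ⊥, ∃ v ∈ fixedPoints (1 : MonoidAlgebra 𝒪 L) ⊥,
      u * v = 1 ∧ v * u = 1 ∧ j = u * e₀ * v}
  let γ : Set (MonoidAlgebra 𝒪 L) :=
    {j | ∃ u ∈ fixedPoints (1 : MonoidAlgebra 𝒪 L) (D : Subgroup L),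
      ∃ v ∈ fixedPoints (1 : MonoidAlgebra 𝒪 L) (D : Subgroup L),
      u * v = 1 ∧ v * u = 1 ∧ j = u * 1 * v}
  have h1γ : (1 : MonoidAlgebra 𝒪 L) ∈ γ :=
    ⟨1, hprim1.1, 1, hprim1.1, by simp, by simp, by simp⟩
  have hγ : ∀ j ∈ γ, j = 1 := by
    rintro j ⟨u, _, v, _, huv, _, rfl⟩
    rw [mul_one, huv]
  refine ⟨δ, γ, ((s : Set (MonoidAlgebra 𝒪 L)) ∩ δ).ncard, ?_, ?_, ?_, ?_⟩
  · refine ⟨⟨e₀, hprim e₀ he₀.1, rfl⟩, ?_, bot_le, 1, hblockbot, by simp, fun j _ => by simp⟩
    rintro j ⟨u, _, v, _, huv, hvu, rfl⟩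
    apply br_bot_ne
    by_contra hcon
    push Not at hcon
    have hr : red 𝒪 L (u * e₀ * v) = 0 := by
      ext g
      rw [coeff_red, hcon g]; simp
    have hid : (u * e₀ * v) * (u * e₀ * v) = u * e₀ * v := by
      calc (u * e₀ * v) * (u * e₀ * v) = u * e₀ * (v * u) * e₀ * v := by simp only [mul_assoc]
        _ = u * (e₀ * e₀) * v := by rw [hvu]; simp only [mul_assoc, one_mul]
        _ = u * e₀ * v := by rw [(hs1 e₀ he₀.1).idem]
    have h0 := idem_zero hid hr
    apply (hs1 e₀ he₀.1).ne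
    calc e₀ = (v * u) * e₀ * (v * u) := by rw [hvu]; simp
      _ = v * (u * e₀ * v) * u := by simp only [mul_assoc]
      _ = 0 := by rw [h0]; simp
  · refine ⟨⟨1, hprim1, rfl⟩, ?_, le_refl _, 1, hblockD, by simp, fun j _ => by simp⟩
    intro j hj
    rw [hγ j hj, br_one]
    exact one_ne_zero
  · exact ⟨bot_le, 1, h1γ, s, hprim, hs2, hs3, rfl⟩
  · refine hcard.trans ?_
    rw [← Set.ncard_coe_finset]
    refine Set.ncard_le_ncard ?_ ((s.finite_toSet).inter_of_left _)
    intro e he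
    rw [Finset.mem_coe, Finset.mem_filter] at he
    refine ⟨he.1, ?_⟩
    by_cases hee : e = e₀
    · subst hee
      exact ⟨1, mem_fixedPoints_bot _, 1, mem_fixedPoints_bot _, by simp, by simp, by simp⟩
    · obtain ⟨x, y, a1, a2, a3, a4, a5, a6⟩ := link ρ hρ (hs1 e he.1) (hs1 e₀ he₀.1) he.2 he₀.2
      obtain ⟨u, hu1, hu2⟩ := conj_of_link (hs1 e he.1).idem (hs1 e₀ he₀.1).idem
        (hs2 e he.1 e₀ he₀.1 hee) (hs2 e₀ he₀.1 e he.1 (Ne.symm hee)) a1 a2 a3 a4 a5 a6
      exact ⟨u, mem_fixedPoints_bot _, u, mem_fixedPoints_bot _, hu1, hu1, hu2⟩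

end Pool.Agent.Helper17.PF
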