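import Pool.Agent.Helper17.PF.Wreath

/-!
# The growth of the multiplicities
-/

namespace Pool.Agent.Helper17.PF

open IsLocalRing Real

lemma self_pow_le (u : ℕ) : u ^ u ≤ (u.factorial) ^ 2 := by
  have h1 : (u.factorial) ^ 2 = ∏ i ∈ Finset.range u, (i + 1) * (u - i) := by
    rw [Finset.prod_mul_distrib, Finset.prod_range_add_one_eq_factorial]
    have h2 : ∏ i ∈ Finset.range u, (u - i) = u.factorial := by
      rw [← Finset.prod_range_add_one_eq_factorial, ← Finset.prod_range_reflect]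
      refine Finset.prod_congr rfl fun i hi => ?_
      have := Finset.mem_range.1 hi
      omega
    rw [h2, sq]
  rw [h1]
  have h3 : u ^ u = ∏ i ∈ Finset.range u, u := by simp
  rw [h3]
  refine Finset.prod_le_prod' fun i hi => ?_
  have hi' := Finset.mem_range.1 hi
  obtain ⟨j, rfl⟩ : ∃ j, u = i + 1 + j := ⟨u - (i + 1), by omega⟩
  have : i + 1 + j - i = 1 + j := by omega
  rw [this]
  nlinarith [Nat.zero_le (i * j)]

lemma prod_ge (u : ℕ) : u ^ (u ^ 2) ≤ (∏ s ∈ Finset.range (2 * u), (s + 1).factorial) ^ 2 := by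
  have h1 : (u.factorial) ^ u ≤ ∏ s ∈ Finset.range (2 * u), (s + 1).factorial := by
    have h2 : Finset.range (2 * u) = Finset.range (u + u) := by rw [two_mul]
    rw [h2, Finset.prod_range_add]
    have h3 : (u.factorial) ^ u = ∏ i ∈ Finset.range u, u.factorial := by simp
    rw [h3]
    calc ∏ i ∈ Finset.range u, u.factorial
        ≤ ∏ i ∈ Finset.range u, (u + i + 1).factorial :=
          Finset.prod_le_prod' fun i _ => Nat.factorial_le (by omega)
      _ = 1 * ∏ i ∈ Finset.range u, (u + i + 1).factorial := (one_mul _).symm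
      _ ≤ _ := Nat.mul_le_mul_right _ (Finset.prod_pos fun i _ => Nat.factorial_pos _)
  calc u ^ (u ^ 2) = (u ^ u) ^ u := by rw [← pow_mul, sq]
    _ ≤ ((u.factorial) ^ 2) ^ u := Nat.pow_le_pow_left (self_pow_le u) _
    _ = ((u.factorial) ^ u) ^ 2 := by rw [← pow_mul, ← pow_mul, mul_comm]
    _ ≤ _ := Nat.pow_le_pow_left h1 _

variable (𝒪 : Type*) [CommRing 𝒪] [IsLocalRing 𝒪] [IsAdicComplete (maximalIdeal 𝒪) 𝒪]
    [IsAlgClosed (ResidueField 𝒪)] (p : ℕ) [hp : Fact p.Prime] [CharP (ResidueField 𝒪) p]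

include hp in
theorem occurs_t (t : ℕ) : ∃ q n : ℕ, Occurs 𝒪 p q n ∧ t < q ∧ q ≤ p ^ ((p - 1) * (t * (t + 1))) ∧
    ∏ s ∈ Finset.range t, (s + 1).factorial ≤ n := by
  obtain ⟨D, δ, γ, n, h1, h2, h3, h4, h5, h6, h7, h8, h9⟩ := main_t 𝒪 p t
  refine ⟨Nat.card D, n, ⟨W p t, inferInstance, inferInstance, 1, 1, D, ⊥, D, δ, γ, h1, h2, rfl,
    h3, h4, h5, h6⟩, ?_, h8, h9⟩
  refine lt_of_lt_of_le ?_ h7
  have h10 : t ≤ Fintype.card (Pt t (p - 1)) := by
    have h11 := card_pt t (p - 1)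
    have h12 : 1 ≤ p - 1 := by have := hp.out.one_lt; omega
    have h13 : 1 * (t * (t + 1)) ≤ (p - 1) * (t * (t + 1)) := Nat.mul_le_mul_right _ h12
    rcases Nat.eq_zero_or_pos t with h0 | h0
    · omega
    · nlinarith
  calc t ≤ Fintype.card (Pt t (p - 1)) := h10
    _ < p ^ Fintype.card (Pt t (p - 1)) := Nat.lt_pow_self hp.out.one_lt

include hp in
theorem occurs_log : ∃ c : ℝ, 0 < c ∧ ∀ N : ℕ, ∃ q n : ℕ, N ≤ q ∧ Occurs 𝒪 p q n ∧
    (q : ℝ) ^ (c * log (log q)) ≤ n := by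
  have hp1 : (1 : ℝ) ≤ (p : ℝ) - 1 := by
    have : (2 : ℝ) ≤ p := by exact_mod_cast hp.out.two_le
    linarith
  have hlogp : 0 < log p := Real.log_pos (by exact_mod_cast hp.out.one_lt)
  set K : ℝ := ((p : ℝ) - 1) * log p with hK
  have hK0 : 0 < K := by positivity
  refine ⟨1 / (36 * K), by positivity, fun N => ?_⟩
  obtain ⟨u, hu⟩ := exists_nat_ge (max (6 * K) (max (N : ℝ) 3))
  have hu1 : 6 * K ≤ u := (le_max_left _ _).trans hu
  have hu2 : (N : ℝ) ≤ u := ((le_max_left _ _).trans (le_max_right _ _)).trans hu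
  have hu3 : (3 : ℝ) ≤ u := ((le_max_right _ _).trans (le_max_right _ _)).trans hu
  obtain ⟨q, n, hocc, hq1, hq2, hn⟩ := occurs_t 𝒪 p (2 * u)
  have hu2' : N ≤ u := by exact_mod_cast hu2
  have hu3' : 3 ≤ u := by exact_mod_cast hu3
  refine ⟨q, n, by omega, hocc, ?_⟩
  have hq0 : (0 : ℝ) < q := by exact_mod_cast (by omega : 0 < q)
  have hq6 : (6 : ℝ) ≤ q := by exact_mod_cast (by omega : 6 ≤ q)
  have hlogu : 0 < log u := Real.log_pos (by linarith)
  have hlogq : 0 < log q := Real.log_pos (by linarith)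
  have hnpos : 0 < n := lt_of_lt_of_le (Finset.prod_pos fun s _ => Nat.factorial_pos _) hn
  have hn0 : (0 : ℝ) < n := by exact_mod_cast hnpos
  -- upper bound for log q
  have e1 : log q ≤ 6 * K * u ^ 2 := by
    have h1 : log (q : ℝ) ≤ log ((p ^ ((p - 1) * (2 * u * (2 * u + 1))) : ℕ) : ℝ) :=
      Real.log_le_log hq0 (by exact_mod_cast hq2)
    rw [Nat.cast_pow, Real.log_pow] at h1
    have h2 : (((p - 1) * (2 * u * (2 * u + 1)) : ℕ) : ℝ) = ((p : ℝ) - 1) * (2 * u * (2 * u + 1)) := by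
      rw [Nat.cast_mul, Nat.cast_sub hp.out.one_lt.le]
      push_cast
      ring
    rw [h2] at h1
    have h3 : (2 * (u : ℝ) * (2 * u + 1)) ≤ 6 * u ^ 2 := by nlinarith
    calc log (q : ℝ) ≤ ((p : ℝ) - 1) * (2 * u * (2 * u + 1)) * log p := h1
      _ = K * (2 * u * (2 * u + 1)) := by rw [hK]; ring
      _ ≤ K * (6 * u ^ 2) := mul_le_mul_of_nonneg_left h3 hK0.le
      _ = 6 * K * u ^ 2 := by ring
  have e2 : log (log q) ≤ 3 * log u := by
    have h1 : log (log q) ≤ log (6 * K * u ^ 2) := Real.log_le_log hlogq e1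
    have h2 : 6 * K * (u : ℝ) ^ 2 ≤ (u : ℝ) ^ 3 := by
      have : (0 : ℝ) ≤ (u : ℝ) ^ 2 := by positivity
      nlinarith
    have h3 : log (6 * K * (u : ℝ) ^ 2) ≤ log ((u : ℝ) ^ 3) := Real.log_le_log (by positivity) h2
    rw [Real.log_pow] at h3
    push_cast at h3
    linarith
  -- lower bound for log n
  have e3 : (u : ℝ) ^ 2 * log u ≤ 2 * log n := by
    have h1 : u ^ (u ^ 2) ≤ n ^ 2 := (prod_ge u).trans (Nat.pow_le_pow_left hn 2)
    have h2 : log ((u ^ (u ^ 2) : ℕ) : ℝ) ≤ log ((n ^ 2 : ℕ) : ℝ) :=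
      Real.log_le_log (by positivity) (by exact_mod_cast h1)
    rw [Nat.cast_pow, Nat.cast_pow, Real.log_pow, Real.log_pow] at h2
    push_cast at h2
    linarith
  have e4 : log q * (1 / (36 * K) * log (log q)) ≤ log n := by
    have h1 : log q * log (log q) ≤ 6 * K * u ^ 2 * (3 * log u) := by
      calc log q * log (log q) ≤ log q * (3 * log u) := mul_le_mul_of_nonneg_left e2 hlogq.le
        _ ≤ 6 * K * u ^ 2 * (3 * log u) := mul_le_mul_of_nonneg_right e1 (by positivity)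
    have h2 : log q * (1 / (36 * K) * log (log q)) = (log q * log (log q)) / (36 * K) := by
      field_simp
    rw [h2, div_le_iff₀ (by positivity)]
    calc log q * log (log q) ≤ 6 * K * u ^ 2 * (3 * log u) := h1
      _ = 18 * K * (u ^ 2 * log u) := by ring
      _ ≤ 18 * K * (2 * log n) := mul_le_mul_of_nonneg_left e3 (by positivity)
      _ = log n * (36 * K) := by ring
  rw [Real.rpow_def_of_pos hq0]
  calc exp (log q * (1 / (36 * K) * log (log q))) ≤ exp (log n) := Real.exp_le_exp.2 e4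
    _ = n := Real.exp_log hn0

include hp in
theorem occurs_poly (C : ℕ) : ∃ q n : ℕ, Occurs 𝒪 p q n ∧ C * q ^ C < n := by
  obtain ⟨c, hc, h⟩ := occurs_log 𝒪 p
  obtain ⟨N, hN⟩ := exists_nat_ge (max (exp (exp ((C + 1) / c))) ((C : ℝ) + 3))
  obtain ⟨q, n, hNq, hocc, hqn⟩ := h N
  refine ⟨q, n, hocc, ?_⟩
  have hq1 : exp (exp ((C + 1) / c)) ≤ q :=
    ((le_max_left _ _).trans hN).trans (by exact_mod_cast hNq)
  have hq2 : (C : ℝ) + 3 ≤ q := ((le_max_right _ _).trans hN).trans (by exact_mod_cast hNq)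
  have hC : (0 : ℝ) ≤ C := Nat.cast_nonneg C
  have hq0 : (0 : ℝ) < q := by linarith
  have h1 : exp ((C + 1) / c) ≤ log q := by
    rw [Real.le_log_iff_exp_le hq0]; exact hq1
  have h2 : (C + 1) / c ≤ log (log q) := by
    rw [Real.le_log_iff_exp_le (lt_of_lt_of_le (exp_pos _) h1)]; exact h1
  have h3 : (C : ℝ) + 1 ≤ c * log (log q) := by
    rw [div_le_iff₀ hc] at h2
    linarith
  have h4 : (q : ℝ) ^ ((C : ℝ) + 1) ≤ n :=
    (Real.rpow_le_rpow_of_exponent_le (by linarith) h3).trans hqn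
  have h5 : (q : ℝ) ^ ((C : ℝ) + 1) = (q : ℝ) ^ C * q := by
    rw [Real.rpow_add hq0, Real.rpow_one, Real.rpow_natCast]
  rw [h5] at h4
  have h6 : (q ^ C * q : ℕ) ≤ n := by exact_mod_cast h4
  have h7 : C < q := by
    have : (C : ℝ) < q := by linarith
    exact_mod_cast this
  have h8 : 0 < q ^ C := Nat.pow_pos (by omega)
  calc C * q ^ C < q * q ^ C := Nat.mul_lt_mul_of_pos_right h7 h8
    _ = q ^ C * q := mul_comm _ _
    _ ≤ n := h6

end Pool.Agent.Helper17.PF
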