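import Pool.Agent.Helper17.PF.Grp

/-!
# Simplicity of the left ideal generated by `b * a` in characteristic `p`

`G` is a finite group with two subgroups `R`, `C`, `a` and `b` are the sums of their elements.
-/

namespace Pool.Agent.Helper17.PF

open MonoidAlgebra

set_option linter.unusedSectionVars false

variable {k : Type*} [Field k] {G : Type*} [Group G] [Fintype G]

open Classical in
/-- the sum of the elements of a subgroup -/
noncomputable def sm (k : Type*) [Field k] {G : Type*} [Group G] [Fintype G] (H : Subgroup G) :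
    MonoidAlgebra k G := ∑ h : H, single (h : G) (1 : k)

lemma single_mul_sm (H : Subgroup G) {h : G} (hh : h ∈ H) :
    single h (1 : k) * sm k H = sm k H := by
  classical
  unfold sm
  rw [Finset.mul_sum]
  refine Fintype.sum_equiv (Equiv.mulLeft (⟨h, hh⟩ : H)) _ _ fun x => ?_
  simp [single_mul_single]

lemma sm_mul_single (H : Subgroup G) {h : G} (hh : h ∈ H) :
    sm k H * single h (1 : k) = sm k H := by
  classical
  unfold sm
  rw [Finset.sum_mul]
  refine Fintype.sum_equiv (Equiv.mulRight (⟨h, hh⟩ : H)) _ _ fun x => ?_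
  simp [single_mul_single]

/-- the trace form -/
lemma coeff_one_mul_comm (x y : MonoidAlgebra k G) : (x * y).coeff 1 = (y * x).coeff 1 := by
  induction x using MonoidAlgebra.induction_linear with
  | zero => simp
  | add f g hf hg => simp [add_mul, mul_add, hf, hg]
  | single g r =>
    rw [coeff_single_mul_apply, coeff_mul_single_apply]
    simp [mul_comm]

lemma coeff_mul_eq (x y : MonoidAlgebra k G) (h : G) :
    (x * y).coeff h = (y * single h⁻¹ (1 : k) * x).coeff 1 := by
  have : (x * y).coeff h = (single h⁻¹ (1 : k) * (x * y)).coeff 1 := by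
    rw [coeff_single_mul_apply]; simp
  rw [this, mul_assoc, coeff_one_mul_comm (y)]
  rw [mul_assoc]

lemma eq_zero_of_coeff_one (x : MonoidAlgebra k G)
    (h : ∀ g : G, (single g (1 : k) * x).coeff 1 = 0) : x = 0 := by
  ext g
  have := h g⁻¹
  rw [coeff_single_mul_apply] at this
  simpa using this

section

variable (R C : Subgroup G)

lemma smC_smR_coeff_of_not (g : G) (hg : ∀ c ∈ C, ∀ r ∈ R, g ≠ c * r) :
    (sm k C * sm k R).coeff g = 0 := by
  classical
  unfold sm
  rw [Finset.sum_mul_sum]
  simp only [single_mul_single, coeff_sum, Finset.sum_apply', coeff_single, mul_one]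
  refine Finset.sum_eq_zero fun c _ => Finset.sum_eq_zero fun r _ => ?_
  rw [Finsupp.single_apply, if_neg]
  intro h
  exact hg c c.2 r r.2 h.symm

lemma smC_smR_coeff_one : (sm k C * sm k R).coeff 1 = (Nat.card (R ⊓ C : Subgroup G) : k) := by
  classical
  unfold sm
  rw [Finset.sum_mul_sum]
  simp only [single_mul_single, coeff_sum, Finset.sum_apply', coeff_single, mul_one,
    Finsupp.single_apply]
  have h1 : ∀ c : C, (∑ r : R, if (c : G) * (r : G) = 1 then (1 : k) else 0) =
      if (c : G) ∈ R then 1 else 0 := by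
    intro c
    by_cases hc : (c : G) ∈ R
    · rw [if_pos hc, Finset.sum_eq_single (⟨(c : G)⁻¹, R.inv_mem hc⟩ : R)]
      · simp
      · intro r _ hr
        rw [if_neg]
        intro h
        apply hr
        ext
        exact (inv_eq_of_mul_eq_one_right h).symm
      · simp
    · rw [if_neg hc]
      refine Finset.sum_eq_zero fun r _ => ?_
      rw [if_neg]
      intro h
      apply hc
      have : (c : G) = (r : G)⁻¹ := eq_inv_of_mul_eq_one_left h
      rw [this]
      exact R.inv_mem r.2
  simp only [h1]
  rw [Finset.sum_ite, Finset.sum_const_zero, add_zero, Finset.sum_const, nsmul_eq_mul, mul_one]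
  congr 1
  rw [Nat.card_eq_fintype_card]
  symm
  refine Finset.card_bij (s := (Finset.univ : Finset (R ⊓ C : Subgroup G)))
    (fun x _ => (⟨(x : G), x.2.2⟩ : C)) ?_ ?_ ?_
  · intro x _
    rw [Finset.mem_filter]
    exact ⟨Finset.mem_univ _, x.2.1⟩
  · intro x _ y _ h
    have := congrArg (fun z : C => (z : G)) h
    exact Subtype.ext this
  · intro c hc
    rw [Finset.mem_filter] at hc
    exact ⟨⟨(c : G), hc.2, c.2⟩, Finset.mem_univ _, rfl⟩

end

/-- the combinatorial properties of the row group and the column group of a (thick) staircase -/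
structure Stair (k : Type*) [Field k] (p : ℕ) (R C : Subgroup G) (π τ : G) : Prop where
  inter : (Nat.card (R ⊓ C : Subgroup G) : k) ≠ 0
  vn : ∀ g : G, (∃ c ∈ C, ∃ r ∈ R, g = c * r) ∨ (∃ q ∈ C, q ≠ 1 ∧ q ^ p = 1 ∧ g⁻¹ * q * g ∈ R)
  rev : ∀ c ∈ C, (∃ c' ∈ C, ∃ r ∈ R, π * c = c' * r) → c ∈ R
  revR : π ∈ R
  tau : τ * τ = 1
  tauR : ∀ r ∈ R, τ * r * τ ∈ C
  tauC : ∀ c ∈ C, τ * c * τ ∈ R

namespace Stair

variable {p : ℕ} [Fact p.Prime] [CharP k p] {R C : Subgroup G} {π τ : G}

omit [Fact p.Prime] [CharP k p] in
lemma mul_of_mem {c r : G} (hc : c ∈ C) (hr : r ∈ R) :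
    sm k C * single (c * r) (1 : k) * sm k R = sm k C * sm k R := by
  have : single (c * r) (1 : k) = single c 1 * single r 1 := by simp [single_mul_single]
  rw [this, ← mul_assoc, sm_mul_single C hc, mul_assoc, single_mul_sm R hr]

lemma mul_of_q {g q : G} (hq : q ∈ C) (hq1 : q ≠ 1) (hqq : q ^ p = 1)
    (hg : g⁻¹ * q * g ∈ R) :
    sm k C * single g (1 : k) * sm k R = 0 := by
  classical
  have h0 : sm k C = ∑ c : C, single ((c : G)⁻¹) (1 : k) := by
    unfold sm
    exact Fintype.sum_equiv (Equiv.inv C) _ _ fun c => by simp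
  rw [h0, Finset.sum_mul, Finset.sum_mul]
  let Q : Subgroup C := Subgroup.zpowers ⟨q, hq⟩
  have hQ : IsPGroup p Q := by
    rintro ⟨x, m, hm⟩
    refine ⟨1, Subtype.ext (Subtype.ext ?_)⟩
    subst hm
    change ((⟨q, hq⟩ : C) ^ m : C).1 ^ (p ^ 1) = 1
    rw [pow_one]
    change (q ^ m) ^ p = 1
    rw [← zpow_natCast, ← zpow_mul, mul_comm, zpow_mul, zpow_natCast, hqq, one_zpow]
  have hR : ∀ m : ℤ, g⁻¹ * q ^ m * g ∈ R := by
    intro m
    have h1 : g⁻¹ * q ^ m * g = (g⁻¹ * q * g) ^ m := by
      have := conj_zpow (i := m) (a := g⁻¹) (b := q)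
      simpa using this.symm
    rw [h1]
    exact R.zpow_mem hg m
  have key := sum_fixed (p := p) (F := k) (A := Q) (α := C) hQ
    (fun c : C => single ((c : G)⁻¹) (1 : k) * single g 1 * sm k R) (by
      rintro ⟨x, m, rfl⟩ c
      change single ((((⟨q, hq⟩ : C) ^ m * c : C) : G)⁻¹) (1 : k) * single g 1 * sm k R = _
      have h2 : single ((((⟨q, hq⟩ : C) ^ m * c : C) : G)⁻¹) (1 : k) * single g 1 =
          single ((c : G)⁻¹) (1 : k) * single g 1 * single (g⁻¹ * q ^ (-m) * g) 1 := by
        simp only [single_mul_single, mul_one]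
        congr 1
        have : (((⟨q, hq⟩ : C) ^ m * c : C) : G) = q ^ m * c := rfl
        rw [this, mul_inv_rev, zpow_neg]
        group
      rw [h2, mul_assoc, single_mul_sm R (hR (-m))]) ∅ (by
      intro c
      simp only [Finset.notMem_empty, false_iff, not_forall]
      refine ⟨⟨⟨q, hq⟩, 1, by simp⟩, ?_⟩
      intro h
      apply hq1
      have h3 : (⟨q, hq⟩ : C) * c = c := h
      have h4 := congrArg (fun z : C => (z : G)) (mul_eq_right.1 h3)
      exact h4)
  rw [key, Finset.sum_empty]

omit [Fact p.Prime] [CharP k p] in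
lemma coeff_ba : (sm k C * sm k R).coeff 1 = (Nat.card (R ⊓ C : Subgroup G) : k) :=
  smC_smR_coeff_one R C

lemma mul_single_mul (h : Stair k p R C π τ) (g : G) :
    sm k C * single g (1 : k) * sm k R =
      ((sm k C * single g (1 : k) * sm k R).coeff 1 * (Nat.card (R ⊓ C : Subgroup G) : k)⁻¹) •
        (sm k C * sm k R) := by
  rcases h.vn g with ⟨c, hc, r, hr, rfl⟩ | ⟨q, hq, hq1, hqq, hg⟩
  · rw [mul_of_mem hc hr, coeff_ba, mul_inv_cancel₀ h.inter, one_smul]
  · rw [mul_of_q hq hq1 hqq hg]; simp

lemma mul_mul (h : Stair k p R C π τ) (x : MonoidAlgebra k G) :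
    sm k C * x * sm k R =
      ((sm k C * x * sm k R).coeff 1 * (Nat.card (R ⊓ C : Subgroup G) : k)⁻¹) •
        (sm k C * sm k R) := by
  induction x using MonoidAlgebra.induction_linear with
  | zero => simp
  | add f g hf hg =>
    rw [mul_add, add_mul, coeff_add, Finsupp.add_apply, add_mul, add_smul, ← hf, ← hg]
  | single g r =>
    have : single g r = r • single g (1 : k) := by simp [smul_single]
    have h3 := h.mul_single_mul g
    rw [this, mul_smul_comm, smul_mul_assoc, coeff_smul, Finsupp.smul_apply, smul_eq_mul,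
      mul_assoc r, mul_smul r, ← h3]

/-- an element `x` of `k G a` is killed by `b g` for all `g` iff `x b = 0` -/
lemma kill_iff (h : Stair k p R C π τ) (x y : MonoidAlgebra k G) (hx : x = y * sm k R) :
    (∀ g : G, sm k C * single g (1 : k) * x = 0) ↔ x * sm k C = 0 := by
  constructor
  · intro hg
    ext g
    rw [coeff_mul_eq, hg]
    simp
  · intro hb g
    have h1 : sm k C * single g (1 : k) * x =
        ((sm k C * single g (1 : k) * x).coeff 1 * (Nat.card (R ⊓ C : Subgroup G) : k)⁻¹) •
          (sm k C * sm k R) := by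
      have := h.mul_mul (single g (1 : k) * y)
      subst hx
      simpa [mul_assoc] using this
    have h2 : (sm k C * single g (1 : k) * x).coeff 1 = 0 := by
      have := coeff_mul_eq x (sm k C) g⁻¹
      rw [inv_inv] at this
      rw [← this, hb]; simp
    rw [h1, h2, zero_mul, zero_smul]

lemma rev_mul (h : Stair k p R C π τ) :
    sm k C * single π (1 : k) * (sm k C * sm k R) =
      (Nat.card (R ⊓ C : Subgroup G) : k) • (sm k C * sm k R) := by
  classical
  have h1 : sm k C * single π (1 : k) * (sm k C * sm k R) =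
      ∑ c : C, sm k C * single (π * (c : G)) (1 : k) * sm k R := by
    conv_lhs => rw [← mul_assoc]
    conv_lhs =>
      enter [1, 2]
      rw [sm]
    rw [Finset.mul_sum, Finset.sum_mul]
    refine Finset.sum_congr rfl fun c _ => ?_
    rw [mul_assoc (sm k C) (single π (1 : k)), single_mul_single, mul_one]
  have h2 : ∀ c : C, sm k C * single (π * (c : G)) (1 : k) * sm k R =
      (if (c : G) ∈ R then (1 : k) else 0) • (sm k C * sm k R) := by
    intro c
    by_cases hc : (c : G) ∈ R
    · rw [if_pos hc, one_smul]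
      have := mul_of_mem (k := k) (C := C) (R := R) (c := 1) (r := π * c) C.one_mem
        (R.mul_mem h.revR hc)
      simpa using this
    · rw [if_neg hc, zero_smul]
      rcases h.vn (π * (c : G)) with ⟨c', hc', r, hr, he⟩ | ⟨q, hq, hq1, hqq, hg⟩
      · exact absurd (h.rev c c.2 ⟨c', hc', r, hr, he⟩) hc
      · exact mul_of_q hq hq1 hqq hg
  rw [h1]
  simp only [h2]
  rw [← Finset.sum_smul]
  congr 1
  rw [Finset.sum_ite, Finset.sum_const_zero, add_zero, Finset.sum_const, nsmul_eq_mul, mul_one]
  congr 1
  rw [Nat.card_eq_fintype_card]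
  symm
  refine Finset.card_bij (s := (Finset.univ : Finset (R ⊓ C : Subgroup G)))
    (fun x _ => (⟨(x : G), x.2.2⟩ : C)) ?_ ?_ ?_
  · intro x _
    rw [Finset.mem_filter]
    exact ⟨Finset.mem_univ _, x.2.1⟩
  · intro x _ y _ h
    have := congrArg (fun z : C => (z : G)) h
    exact Subtype.ext this
  · intro c hc
    rw [Finset.mem_filter] at hc
    exact ⟨⟨(c : G), hc.2, c.2⟩, Finset.mem_univ _, rfl⟩

lemma tau_sm (h : Stair k p R C π τ) :
    single τ (1 : k) * sm k R * single τ (1 : k) = sm k C := by
  classical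
  unfold sm
  rw [Finset.mul_sum, Finset.sum_mul]
  refine Fintype.sum_bijective (fun r : R => (⟨τ * r * τ, h.tauR r r.2⟩ : C)) ⟨?_, ?_⟩ _ _ ?_
  · intro x y hxy
    have := congrArg (fun z : C => (z : G)) hxy
    ext
    simpa using this
  · intro c
    refine ⟨⟨τ * c * τ, h.tauC c c.2⟩, ?_⟩
    ext
    have ht := h.tau
    calc τ * (τ * c * τ) * τ = (τ * τ) * c * (τ * τ) := by group
      _ = c := by rw [ht]; simp
  · intro r
    simp [single_mul_single]

lemma single_tau_sq (h : Stair k p R C π τ) : single τ (1 : k) * single τ (1 : k) = 1 := by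
  rw [single_mul_single, h.tau]; simp [one_def]

lemma tau_sm' (h : Stair k p R C π τ) :
    single τ (1 : k) * sm k C * single τ (1 : k) = sm k R := by
  rw [← h.tau_sm (k := k)]
  have ht := h.single_tau_sq (k := k)
  calc single τ (1 : k) * (single τ (1 : k) * sm k R * single τ (1 : k)) * single τ (1 : k)
      = (single τ (1 : k) * single τ (1 : k)) * sm k R * (single τ (1 : k) * single τ (1 : k)) := by
        simp only [mul_assoc]
    _ = sm k R := by rw [ht]; simp

/-- the relation `a b τ = τ b a` -/
lemma a_b_tau (h : Stair k p R C π τ) :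
    sm k R * sm k C * single τ (1 : k) = single τ (1 : k) * sm k C * sm k R := by
  have ht := h.single_tau_sq (k := k)
  have h1 := h.tau_sm (k := k)
  have h2 := h.tau_sm' (k := k)
  calc sm k R * sm k C * single τ (1 : k)
      = (single τ (1 : k) * sm k C * single τ (1 : k)) *
          (single τ (1 : k) * sm k R * single τ (1 : k)) * single τ (1 : k) := by rw [h1, h2]
    _ = single τ (1 : k) * sm k C * (single τ (1 : k) * single τ (1 : k)) * sm k R *
          (single τ (1 : k) * single τ (1 : k)) := by simp only [mul_assoc]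
    _ = single τ (1 : k) * sm k C * sm k R := by rw [ht]; simp

lemma ba_ne (h : Stair k p R C π τ) : sm k C * sm k R ≠ 0 := by
  intro h0
  have := coeff_ba (k := k) (R := R) (C := C)
  rw [h0] at this
  exact h.inter this.symm

/-- `b a b` is not zero. -/
lemma bab_ne (h : Stair k p R C π τ) : sm k C * sm k R * sm k C ≠ 0 := by
  intro h0
  have h1 := (h.kill_iff (k := k) (sm k C * sm k R) (sm k C) rfl).2 h0 π
  rw [h.rev_mul] at h1
  rcases smul_eq_zero.1 h1 with h2 | h2
  · exact h.inter h2
  · exact h.ba_ne h2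

/-- The left ideal generated by `b a`. -/
noncomputable def S (k : Type*) [Field k] {G : Type*} [Group G] [Fintype G] (R C : Subgroup G) :
    Submodule (MonoidAlgebra k G) (MonoidAlgebra k G) :=
  Submodule.span _ {sm k C * sm k R}

lemma mem_S {x : MonoidAlgebra k G} : x ∈ S k R C ↔ ∃ y, y * (sm k C * sm k R) = x := by
  unfold S
  rw [Submodule.mem_span_singleton]
  rfl

/-- The left ideal generated by `b a` is simple. -/
theorem isAtom (h : Stair k p R C π τ) : IsAtom (S k R C) := by
  classical
  refine ⟨?_, ?_⟩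
  · intro h0
    have : sm k C * sm k R ∈ S k R C := mem_S.2 ⟨1, one_mul _⟩
    rw [h0, Submodule.mem_bot] at this
    exact h.ba_ne this
  · intro N hN
    by_contra hN0
    have hle := hN.le
    -- if `b x ≠ 0` for some `x ∈ N'` then `N' = S`
    have key : ∀ N' : Submodule (MonoidAlgebra k G) (MonoidAlgebra k G), N' ≤ S k R C →
        (∃ x ∈ N', sm k C * x ≠ 0) → S k R C ≤ N' := by
      rintro N' hN' ⟨x, hx, hbx⟩
      obtain ⟨y, hy⟩ := mem_S.1 (hN' hx)
      have h1 : sm k C * x = ((sm k C * x).coeff 1 * (Nat.card (R ⊓ C : Subgroup G) : k)⁻¹) •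
          (sm k C * sm k R) := by
        have := h.mul_mul (y * sm k C)
        rw [← hy]
        simpa [mul_assoc] using this
      have h2 : (sm k C * x).coeff 1 * (Nat.card (R ⊓ C : Subgroup G) : k)⁻¹ ≠ 0 := by
        intro h3
        rw [h3, zero_smul] at h1
        exact hbx h1
      have h3 : sm k C * x ∈ N' := N'.smul_mem (sm k C) hx
      rw [h1] at h3
      have h4 : sm k C * sm k R ∈ N' := by
        have := N'.smul_of_tower_mem
          (((sm k C * x).coeff 1 * (Nat.card (R ⊓ C : Subgroup G) : k)⁻¹)⁻¹ : k) h3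
        rwa [smul_smul, inv_mul_cancel₀ h2, one_smul] at this
      intro z hz
      obtain ⟨w, rfl⟩ := mem_S.1 hz
      exact N'.smul_mem w h4
    have hb : ∀ x ∈ N, sm k C * x = 0 := by
      intro x hx
      by_contra hne
      exact absurd (key N hle ⟨x, hx, hne⟩) hN.not_ge
    have hxb : ∀ x ∈ N, x * sm k C = 0 := by
      intro x hx
      obtain ⟨y, hy⟩ := mem_S.1 (hle hx)
      refine (h.kill_iff (k := k) x (y * sm k C) (by rw [← hy, mul_assoc])).1 fun g => ?_
      rw [mul_assoc]
      exact hb _ (N.smul_mem (single g (1 : k)) hx)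
    -- the map `θ`
    let Sk : Submodule k (MonoidAlgebra k G) := (S k R C).restrictScalars k
    have hθ : ∀ x ∈ Sk, (LinearMap.mulRight k (sm k C * single τ (1 : k))) x ∈ Sk := by
      intro x hx
      obtain ⟨y, rfl⟩ := mem_S.1 hx
      refine mem_S.2 ⟨y * sm k C * single τ (1 : k), ?_⟩
      have := h.a_b_tau (k := k)
      simp only [LinearMap.mulRight_apply]
      calc y * sm k C * single τ (1 : k) * (sm k C * sm k R)
          = y * sm k C * (single τ (1 : k) * sm k C * sm k R) := by simp only [mul_assoc]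
        _ = y * sm k C * (sm k R * sm k C * single τ (1 : k)) := by rw [this]
        _ = y * (sm k C * sm k R) * (sm k C * single τ (1 : k)) := by simp only [mul_assoc]
    let θ : Sk →ₗ[k] Sk := (LinearMap.mulRight k (sm k C * single τ (1 : k))).restrict hθ
    have hfin : FiniteDimensional k (MonoidAlgebra k G) := inferInstance
    have hninj : ¬ Function.Injective θ := by
      intro hinj
      apply hN0
      rw [eq_bot_iff]
      intro x hx
      have hxS : x ∈ Sk := hle hx
      have h0 : θ ⟨x, hxS⟩ = 0 := by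
        ext1
        change x * (sm k C * single τ (1 : k)) = 0
        rw [← mul_assoc, hxb x hx, zero_mul]
      have := hinj (h0.trans (map_zero θ).symm)
      have := congrArg (fun z : Sk => (z : MonoidAlgebra k G)) this
      simpa using this
    have hnsur : ¬ Function.Surjective θ := fun hs =>
      hninj (LinearMap.injective_iff_surjective.2 hs)
    -- the image
    let I : Submodule (MonoidAlgebra k G) (MonoidAlgebra k G) :=
      Submodule.span _ {sm k C * sm k R * sm k C * single τ (1 : k)}
    have hI : ∀ x, x ∈ I ↔ ∃ y, y * (sm k C * sm k R * sm k C * single τ (1 : k)) = x := by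
      intro x
      exact Submodule.mem_span_singleton
    have hIS : I ≤ S k R C := by
      intro x hx
      obtain ⟨y, rfl⟩ := (hI x).1 hx
      have h11 : y * (sm k C * sm k R) * (sm k C * single τ (1 : k)) ∈ S k R C :=
        hθ (y * (sm k C * sm k R)) (mem_S.2 ⟨y, rfl⟩)
      simpa [mul_assoc] using h11
    have hbI : ∀ x ∈ I, sm k C * x = 0 := by
      intro x hx
      by_contra hne
      apply hnsur
      have h5 := key I hIS ⟨x, hx, hne⟩
      rintro ⟨z, hz⟩
      obtain ⟨y, hy⟩ := (hI z).1 (h5 hz)
      refine ⟨⟨y * (sm k C * sm k R), mem_S.2 ⟨y, rfl⟩⟩, ?_⟩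
      ext1
      change y * (sm k C * sm k R) * (sm k C * single τ (1 : k)) = z
      rw [← hy]
      simp only [mul_assoc]
    have h6 : single π (1 : k) * (sm k C * sm k R * sm k C * single τ (1 : k)) ∈ I :=
      (hI _).2 ⟨_, rfl⟩
    have h7 := hbI _ h6
    have h8' : (Nat.card (R ⊓ C : Subgroup G) : k) •
        (sm k C * sm k R * sm k C * single τ (1 : k)) = 0 := by
      have h9 := h.rev_mul
      calc (Nat.card (R ⊓ C : Subgroup G) : k) • (sm k C * sm k R * sm k C * single τ (1 : k))
          = (sm k C * single π (1 : k) * (sm k C * sm k R)) * sm k C * single τ (1 : k) := by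
            rw [h9]
            simp only [smul_mul_assoc]
        _ = sm k C * (single π (1 : k) * (sm k C * sm k R * sm k C * single τ (1 : k))) := by
            simp only [mul_assoc]
        _ = 0 := h7
    have h8 : sm k C * sm k R * sm k C * single τ (1 : k) = 0 := by
      rcases smul_eq_zero.1 h8' with h11 | h11
      · exact absurd h11 h.inter
      · exact h11
    have h10 : sm k C * sm k R * sm k C = 0 := by
      have : sm k C * sm k R * sm k C * single τ (1 : k) * single τ (1 : k) = 0 := by
        rw [h8, zero_mul]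
      rwa [mul_assoc, h.single_tau_sq, mul_one] at this
    exact h.bab_ne h10

/-- The dimension of the simple left ideal is at least the order of every subgroup `Y` which
meets `C R` only in `1`. -/
theorem card_le_finrank (h : Stair k p R C π τ) (Y : Subgroup G)
    (hY : ∀ y ∈ Y, (∃ c ∈ C, ∃ r ∈ R, y = c * r) → y = 1) :
    Nat.card Y ≤ Module.finrank k (S k R C) := by
  classical
  have hfin : FiniteDimensional k (MonoidAlgebra k G) := inferInstance
  let Sk : Submodule k (MonoidAlgebra k G) := (S k R C).restrictScalars k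
  let v : Y → Sk := fun y => ⟨single (y : G) (1 : k) * (sm k C * sm k R), mem_S.2 ⟨_, rfl⟩⟩
  have hv : LinearIndependent k v := by
    rw [Fintype.linearIndependent_iff]
    intro f hf y
    have h1 : ∑ z : Y, f z • (single (z : G) (1 : k) * (sm k C * sm k R)) = 0 := by
      have := congrArg (fun z : Sk => (z : MonoidAlgebra k G)) hf
      simpa [v] using this
    have h2 := congrArg (fun x : MonoidAlgebra k G => x.coeff (y : G)) h1
    simp only [coeff_sum, Finset.sum_apply', coeff_smul, Finsupp.smul_apply,
      coeff_single_mul_apply, coeff_zero, Finsupp.coe_zero, Pi.zero_apply, one_mul,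
      smul_eq_mul] at h2
    rw [Finset.sum_eq_single y] at h2
    · rw [inv_mul_cancel, coeff_ba] at h2
      rcases mul_eq_zero.1 h2 with h5 | h5
      · exact h5
      · exact absurd h5 h.inter
    · intro z _ hz
      have : (sm k C * sm k R).coeff ((z : G)⁻¹ * (y : G)) = 0 := by
        refine smC_smR_coeff_of_not R C _ fun c hc r hr he => ?_
        have h3 := hY ((z : G)⁻¹ * (y : G)) (Y.mul_mem (Y.inv_mem z.2) y.2) ⟨c, hc, r, hr, he⟩
        apply hz
        ext
        exact (inv_mul_eq_one.1 h3)
      rw [this, mul_zero]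
    · simp
  have h4 := hv.fintype_card_le_finrank
  rw [Nat.card_eq_fintype_card]
  exact h4

end Stair

end Pool.Agent.Helper17.PF
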