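import Pool.Agent.Helper17.PF.Cells
import Pool.Agent.Helper17.PF.Alg

/-!
# The simple module of the symmetric group
-/

namespace Pool.Agent.Helper17.PF

open MonoidAlgebra

/-- Burnside: a simple module over an algebraically closed field -/
theorem lsmul_surjective {k A M : Type*} [Field k] [IsAlgClosed k] [Ring A] [Algebra k A]
    [AddCommGroup M] [Module k M] [Module A M] [IsScalarTower k A M] [IsSimpleModule A M]
    [FiniteDimensional k M] : Function.Surjective (Algebra.lsmul k k M : A →ₐ[k] Module.End k M) := by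
  have hsch : ∀ φ : Module.End A M, ∃ c : k, ∀ m, φ m = c • m := by
    intro φ
    have hnt : Nontrivial M := IsSimpleModule.nontrivial A M
    obtain ⟨c, hc⟩ := Module.End.exists_eigenvalue (φ.restrictScalars k)
    obtain ⟨v, hv⟩ := hc.exists_hasEigenvector
    refine ⟨c, ?_⟩
    let ψ : M →ₗ[A] M := φ - (Algebra.lsmul k A M c : M →ₗ[A] M)
    have hψ : ∀ m, ψ m = φ m - c • m := fun m => rfl
    rcases LinearMap.bijective_or_eq_zero ψ with h | h
    · exfalso
      apply hv.2
      apply h.1
      rw [hψ, map_zero]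
      have := hv.apply_eq_smul
      have h2 : φ v = c • v := this
      rw [h2, sub_self]
    · intro m
      have := congrArg (fun f : M →ₗ[A] M => f m) h
      simp only [hψ, LinearMap.zero_apply] at this
      exact sub_eq_zero.1 this
  have hfin : Module.Finite (Module.End A M) M := by
    have : Module.Finite k M := inferInstance
    refine Module.Finite.of_restrictScalars_finite k (Module.End A M) M
  intro B
  have hB : ∀ (φ : Module.End A M) (m : M), B (φ m) = φ (B m) := by
    intro φ m
    obtain ⟨c, hc⟩ := hsch φ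
    rw [hc, hc, map_smul]
  let B' : Module.End (Module.End A M) M :=
    { toFun := B
      map_add' := map_add B
      map_smul' := fun φ m => hB φ m }
  obtain ⟨r, hr⟩ := Module.Finite.toModuleEnd_moduleEnd_surjective (R := A) (M := M) B'
  refine ⟨r, ?_⟩
  ext m
  have := congrArg (fun f => f m) hr
  exact this

/-- The symmetric group of the points of the thick staircase has, over an algebraically closed field
of characteristic `p`, a simple module of dimension at least `1! 2! ... t!`. -/
theorem exists_rep (k : Type*) [Field k] [IsAlgClosed k] (p : ℕ) [hp : Fact p.Prime] [CharP k p]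
    (t : ℕ) : ∃ d : ℕ, ∏ s ∈ Finset.range t, (s + 1).factorial ≤ d ∧
      ∃ ρ : MonoidAlgebra k (Equiv.Perm (Pt t (p - 1))) →ₐ[k] Module.End k (Fin d → k),
        Function.Surjective ρ := by
  classical
  have hst := Pt.stair k p t
  have hat := hst.isAtom
  have hsimple : IsSimpleModule (MonoidAlgebra k (Equiv.Perm (Pt t (p - 1))))
      (Stair.S k (Pt.R t (p - 1)) (Pt.C t (p - 1))) := isSimpleModule_iff_isAtom.2 hat
  have hfin0 : FiniteDimensional k (MonoidAlgebra k (Equiv.Perm (Pt t (p - 1)))) := inferInstance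
  have hfin : FiniteDimensional k (Stair.S k (Pt.R t (p - 1)) (Pt.C t (p - 1))) :=
    inferInstanceAs (FiniteDimensional k
      ((Stair.S k (Pt.R t (p - 1)) (Pt.C t (p - 1))).restrictScalars k))
  have hm : 0 < p - 1 := by
    have := hp.out.one_lt
    omega
  have hinj : Function.Injective (Pt.thickHom t (p - 1)) := by
    intro σ σ' h
    ext1 x
    have := congrArg (fun f : Equiv.Perm (Pt t (p - 1)) => (f (x, ⟨0, hm⟩)).1) h
    exact this
  have hd := hst.card_le_finrank ((Cell.Y t).map (Pt.thickHom t (p - 1))) (by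
    rintro _ ⟨σ, hσ, rfl⟩ h
    rw [Pt.Y_inter hm hσ h, map_one])
  have hcard : Nat.card ((Cell.Y t).map (Pt.thickHom t (p - 1))) = Nat.card (Cell.Y t) :=
    Nat.card_congr ((Cell.Y t).equivMapOfInjective _ hinj).symm.toEquiv
  rw [hcard] at hd
  refine ⟨Module.finrank k (Stair.S k (Pt.R t (p - 1)) (Pt.C t (p - 1))),
    (Cell.card_Y t).trans hd, ?_⟩
  have hsur := lsmul_surjective (k := k) (A := MonoidAlgebra k (Equiv.Perm (Pt t (p - 1))))
    (M := Stair.S k (Pt.R t (p - 1)) (Pt.C t (p - 1)))
  let b := Module.finBasis k (Stair.S k (Pt.R t (p - 1)) (Pt.C t (p - 1)))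
  refine ⟨(b.equivFun.conjAlgEquiv k).toAlgHom.comp (Algebra.lsmul k k _), ?_⟩
  intro A
  obtain ⟨B, hB⟩ := (b.equivFun.conjAlgEquiv k).surjective A
  obtain ⟨r, hr⟩ := hsur B
  refine ⟨r, ?_⟩
  rw [← hB, ← hr]
  rfl

end Pool.Agent.Helper17.PF
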