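import Pool.Agent.Helper17.PF.Gen
import Pool.Agent.Helper17.PF.Rep

/-!
# The wreath product
-/

namespace Pool.Agent.Helper17.PF

open MonoidAlgebra IsLocalRing

set_option linter.unusedSectionVars false

/-- the base group -/
abbrev Base (p t : ℕ) : Type := Pt t (p - 1) → Multiplicative (ZMod p)

/-- the wreath product `C_p ≀ S_n`, `n = (p - 1)t(t + 1)/2` -/
abbrev W (p t : ℕ) : Type := Base p t ⋊[mulAutArrow] Equiv.Perm (Pt t (p - 1))

variable {p : ℕ} [hp : Fact p.Prime]

instance (t : ℕ) : Finite (W p t) := Finite.of_equiv _ SemidirectProduct.equivProd.symm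

/-- the base group as a subgroup -/
def A (p t : ℕ) : Subgroup (W p t) := (SemidirectProduct.inl : Base p t →* W p t).range

lemma mem_A {t : ℕ} {g : W p t} : g ∈ A p t ↔ g.right = 1 := by
  unfold A
  rw [SemidirectProduct.range_inl_eq_ker_rightHom, MonoidHom.mem_ker]
  rfl

lemma pow_base {t : ℕ} (f : Base p t) : f ^ p = 1 := by
  funext x
  change (f x) ^ p = 1
  have h := pow_card_eq_one' (x := f x)
  rwa [Nat.card_eq_fintype_card, Fintype.card_multiplicative, ZMod.card] at h

theorem selfCent (p : ℕ) [hp : Fact p.Prime] (t : ℕ) : SelfCent p (A p t) where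
  normal := by
    unfold A
    rw [SemidirectProduct.range_inl_eq_ker_rightHom]
    infer_instance
  pgroup := by
    rintro ⟨g, f, rfl⟩
    refine ⟨1, Subtype.ext ?_⟩
    change (SemidirectProduct.inl f : W p t) ^ (p ^ 1) = 1
    rw [← map_pow, pow_one, pow_base, map_one]
  comm := by
    rintro _ ⟨f, rfl⟩ _ ⟨g, rfl⟩
    rw [← map_mul, ← map_mul, mul_comm]
  cent := by
    classical
    intro g hg
    rw [mem_A]
    ext1 x
    by_contra hne
    let f : Base p t := Pi.mulSingle (g.right x) (Multiplicative.ofAdd 1)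
    have h1 := hg (SemidirectProduct.inl f) ⟨f, rfl⟩
    have h2 := congrArg (fun z : W p t => z.left (g.right x)) h1
    simp only [SemidirectProduct.mul_left, SemidirectProduct.left_inl,
      SemidirectProduct.right_inl, map_one, MulAut.one_apply, Pi.mul_apply] at h2
    rw [mul_comm, mul_right_inj] at h2
    have h3 : (mulAutArrow g.right f : Base p t) (g.right x) = f (g.right⁻¹ • g.right x) := rfl
    rw [h3] at h2
    have h4 : g.right⁻¹ • g.right x = x := by
      rw [Equiv.Perm.smul_def]; simp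
    rw [h4] at h2
    have h5 : f (g.right x) = Multiplicative.ofAdd 1 := Pi.mulSingle_eq_same _ _
    have h6 : f x = 1 := Pi.mulSingle_eq_of_ne (fun h => hne (by rw [Equiv.Perm.one_apply]; exact h.symm)) _
    rw [h5, h6] at h2
    have h7 : (1 : ZMod p) = 0 := h2
    exact one_ne_zero h7

lemma card_cell (t : ℕ) : 2 * Fintype.card (Cell t) = t * (t + 1) := by
  have h1 : Fintype.card (Cell t) = ∑ i : Fin t, (t - i.val) := by
    rw [Fintype.card_subtype, Finset.card_filter, Fintype.sum_prod_type]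
    refine Finset.sum_congr rfl fun i _ => ?_
    rw [← Finset.card_filter]
    have h2 : (Finset.univ.filter fun j : Fin t => i.val + j.val < t) =
        Finset.univ.filter fun j : Fin t => j.val < t - i.val := by
      ext j
      simp only [Finset.mem_filter, Finset.mem_univ, true_and]
      have := i.2
      omega
    rw [h2]
    rcases Nat.eq_zero_or_pos i.val with h0 | hpos
    · rw [h0, Nat.sub_zero, Finset.filter_true_of_mem (fun j _ => j.2)]
      simp
    · have h3 : (Finset.univ.filter fun j : Fin t => j.val < t - i.val) =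
          Finset.Iio (⟨t - i.val, by have := i.2; omega⟩ : Fin t) := by
        ext j
        simp [Fin.lt_def]
      rw [h3, Fin.card_Iio]
  rw [h1, Fin.sum_univ_eq_sum_range (fun i => t - i) t]
  have h4 : ∑ i ∈ Finset.range t, (t - i) = ∑ i ∈ Finset.range t, (i + 1) := by
    rw [← Finset.sum_range_reflect]
    refine Finset.sum_congr rfl fun i hi => ?_
    have := Finset.mem_range.1 hi
    omega
  rw [h4]
  have h5 := Finset.sum_range_id_mul_two (t + 1)
  rw [Finset.sum_range_succ', add_zero, Nat.add_sub_cancel] at h5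
  rw [mul_comm, h5, mul_comm]

lemma card_pt (t m : ℕ) : 2 * Fintype.card (Pt t m) = m * (t * (t + 1)) := by
  rw [Fintype.card_prod, Fintype.card_fin, ← card_cell]; ring

lemma card_W (t : ℕ) : Nat.card (W p t) =
    p ^ Fintype.card (Pt t (p - 1)) * (Fintype.card (Pt t (p - 1))).factorial := by
  rw [SemidirectProduct.card, Nat.card_eq_fintype_card, Nat.card_eq_fintype_card,
    Fintype.card_perm, Fintype.card_fun, Fintype.card_multiplicative, ZMod.card]

lemma card_sylow (t : ℕ) (D : Sylow p (W p t)) :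
    p ^ Fintype.card (Pt t (p - 1)) ≤ Nat.card D ∧
      Nat.card D ≤ p ^ ((p - 1) * (t * (t + 1))) := by
  have h1 := D.card_eq_multiplicity
  have hpp := hp.out.pos
  rw [card_W, Nat.factorization_mul (by positivity) (Nat.factorial_ne_zero _)] at h1
  have h2 : ((p ^ Fintype.card (Pt t (p - 1))).factorization : ℕ →₀ ℕ) p =
      Fintype.card (Pt t (p - 1)) := by
    rw [Nat.Prime.factorization_pow hp.out]; simp
  have h3 : ((Fintype.card (Pt t (p - 1))).factorial.factorization : ℕ →₀ ℕ) p ≤
      Fintype.card (Pt t (p - 1)) := by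
    rw [Nat.factorization_def _ hp.out]
    have h4 := sub_one_mul_padicValNat_factorial (p := p) (Fintype.card (Pt t (p - 1)))
    have h5 : 1 ≤ p - 1 := by have := hp.out.one_lt; omega
    calc padicValNat p (Fintype.card (Pt t (p - 1))).factorial
        = 1 * padicValNat p (Fintype.card (Pt t (p - 1))).factorial := (one_mul _).symm
      _ ≤ (p - 1) * padicValNat p (Fintype.card (Pt t (p - 1))).factorial :=
          Nat.mul_le_mul_right _ h5
      _ ≤ _ := by rw [h4]; exact Nat.sub_le _ _
  rw [Finsupp.add_apply, h2] at h1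
  rw [h1]
  constructor
  · exact Nat.pow_le_pow_right hpp (by omega)
  · have := card_pt t (p - 1)
    exact Nat.pow_le_pow_right hpp (by omega)

theorem main_t (𝒪 : Type*) [CommRing 𝒪] [IsLocalRing 𝒪] [IsAdicComplete (maximalIdeal 𝒪) 𝒪]
    [IsAlgClosed (ResidueField 𝒪)] (p : ℕ) [hp : Fact p.Prime] [CharP (ResidueField 𝒪) p] (t : ℕ) :
    ∃ (D : Subgroup (W p t)) (δ γ : Set (MonoidAlgebra 𝒪 (W p t))) (n : ℕ),
      IsBlock (1 : MonoidAlgebra 𝒪 (W p t)) ∧ IsDefectGroup p (1 : MonoidAlgebra 𝒪 (W p t)) D ∧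
      IsSourceIdempotent (1 : MonoidAlgebra 𝒪 (W p t)) D 1 ∧
      IsObject 1 D 1 ⊥ δ ∧ IsObject 1 D 1 D γ ∧ IsMultiplicity 1 ⊥ δ D γ n ∧
      p ^ Fintype.card (Pt t (p - 1)) ≤ Nat.card D ∧
      Nat.card D ≤ p ^ ((p - 1) * (t * (t + 1))) ∧
      ∏ s ∈ Finset.range t, (s + 1).factorial ≤ n := by
  classical
  obtain ⟨D, hD⟩ := (selfCent p t).pgroup.exists_le_sylow
  obtain ⟨d, hd, ρ, hρ⟩ := exists_rep (ResidueField 𝒪) p t
  have hsur : Function.Surjective (MonoidAlgebra.mapDomainAlgHom (ResidueField 𝒪) (ResidueField 𝒪)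
      (SemidirectProduct.rightHom : W p t →* Equiv.Perm (Pt t (p - 1)))) := by
    intro y
    induction y using MonoidAlgebra.induction_linear with
    | zero => exact ⟨0, map_zero _⟩
    | add f g hf hg =>
      obtain ⟨a, rfl⟩ := hf
      obtain ⟨b, rfl⟩ := hg
      exact ⟨a + b, map_add _ _ _⟩
    | single g r =>
      refine ⟨single (SemidirectProduct.inr g) r, ?_⟩
      simp
  have hpos : 0 < Module.finrank (ResidueField 𝒪) (Fin d → ResidueField 𝒪) := by
    rw [Module.finrank_fin_fun]
    exact lt_of_lt_of_le (Finset.prod_pos fun s _ => Nat.factorial_pos _) hd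
  obtain ⟨h1, h2, h3, δ, γ, n, h4, h5, h6, h7⟩ := main_gen (𝒪 := 𝒪) (selfCent p t) D hD
    (ρ.comp (MonoidAlgebra.mapDomainAlgHom (ResidueField 𝒪) (ResidueField 𝒪)
      (SemidirectProduct.rightHom : W p t →* Equiv.Perm (Pt t (p - 1)))))
    (by
      rw [AlgHom.coe_comp]
      exact hρ.comp hsur) hpos
  rw [Module.finrank_fin_fun] at h7
  obtain ⟨c1, c2⟩ := card_sylow t D
  exact ⟨D, δ, γ, n, h1, h2, h3, h4, h5, h6, c1, c2, hd.trans h7⟩

end Pool.Agent.Helper17.PF
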